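import Pool.Agent.H395Z.GefDefs

set_option autoImplicit false
set_option linter.style.haveILetI false

namespace Pool.Agent.H395Z.Gef

open MeasureTheory Real

noncomputable section

lemma gauss_int {b : ℝ} (hb : 0 < b) : ∫ v : ℂ, Real.exp (-b * ‖v‖ ^ 2) = π / b := by
  have := GaussianFourier.integral_rexp_neg_mul_sq_norm (V := ℂ) hb
  rw [this, Complex.finrank_real_complex]
  norm_num

lemma gauss_integrable {b : ℝ} (hb : 0 < b) :
    Integrable (fun v : ℂ => Real.exp (-b * ‖v‖ ^ 2)) := by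
  apply Integrable.of_integral_ne_zero
  rw [gauss_int hb]
  exact (div_pos pi_pos hb).ne'

lemma gauss_lint {b c : ℝ} (hb : 0 < b) (hc : 0 ≤ c) :
    ∫⁻ v : ℂ, ENNReal.ofReal (c * Real.exp (-b * ‖v‖ ^ 2)) = ENNReal.ofReal (c * (π / b)) := by
  rw [← ofReal_integral_eq_lintegral_ofReal ((gauss_integrable hb).const_mul c)
    (Filter.Eventually.of_forall (fun v => by positivity)), integral_const_mul, gauss_int hb]

instance : IsProbabilityMeasure stdCG := by
  constructor
  unfold stdCG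
  rw [withDensity_apply _ MeasurableSet.univ, Measure.restrict_univ]
  have := gauss_lint (b := 1) (c := 1 / π) one_pos (by positivity)
  have h2 : 1 / π * (π / 1) = 1 := by field_simp
  rw [h2, ENNReal.ofReal_one] at this
  rw [← this]
  congr 1
  funext v
  congr 1
  rw [neg_mul, one_mul]
  ring

instance : IsProbabilityMeasure coeffLaw := by
  unfold coeffLaw
  infer_instance

lemma ball_lower {a : ℂ} (ha : ‖a‖ ≤ 1) {t : ℝ} (ht0 : 0 ≤ t) (ht : t ≤ 1) :
    ENNReal.ofReal (t ^ 2 * Real.exp (-4)) ≤ stdCG (Metric.closedBall a t) := by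
  unfold stdCG
  rw [withDensity_apply _ Metric.isClosed_closedBall.measurableSet]
  have h1 : ∫⁻ _ in Metric.closedBall a t, ENNReal.ofReal (Real.exp (-4) / π) ≤
      ∫⁻ w in Metric.closedBall a t, ENNReal.ofReal (Real.exp (-‖w‖ ^ 2) / π) := by
    apply setLIntegral_mono' Metric.isClosed_closedBall.measurableSet
    intro w hw
    apply ENNReal.ofReal_le_ofReal
    have h2 : ‖w‖ ≤ 2 := by
      have h3 : ‖w - a‖ ≤ t := by simpa [dist_eq_norm] using hw
      calc ‖w‖ = ‖(w - a) + a‖ := by ring_nf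
        _ ≤ ‖w - a‖ + ‖a‖ := norm_add_le _ _
        _ ≤ 2 := by linarith
    have h4 : ‖w‖ ^ 2 ≤ 4 := by nlinarith [norm_nonneg w]
    gcongr
  refine le_trans (le_of_eq ?_) h1
  rw [setLIntegral_const, Complex.volume_closedBall, ← ENNReal.ofReal_pow ht0]
  have : ((NNReal.pi : NNReal) : ENNReal) = ENNReal.ofReal π := by
    rw [← NNReal.coe_real_pi, ENNReal.ofReal_coe_nnreal]
  rw [this, ← ENNReal.ofReal_mul (by positivity), ← ENNReal.ofReal_mul (by positivity)]
  congr 1
  field_simp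

lemma tail_upper {R : ℝ} (hR : 0 < R) :
    stdCG {w : ℂ | R ≤ ‖w‖} ≤ ENNReal.ofReal (4 / R ^ 2) := by
  have hm : MeasurableSet {w : ℂ | R ≤ ‖w‖} := (isClosed_le continuous_const continuous_norm).measurableSet
  unfold stdCG
  rw [withDensity_apply _ hm]
  have h1 : ∫⁻ w in {w : ℂ | R ≤ ‖w‖}, ENNReal.ofReal (Real.exp (-‖w‖ ^ 2) / π) ≤
      ∫⁻ w in {w : ℂ | R ≤ ‖w‖},
        ENNReal.ofReal ((Real.exp (-(R ^ 2 / 2)) / π) * Real.exp (-(1 / 2) * ‖w‖ ^ 2)) := by
    apply setLIntegral_mono' hm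
    intro w hw
    apply ENNReal.ofReal_le_ofReal
    have hw' : R ≤ ‖w‖ := hw
    rw [div_mul_eq_mul_div, ← Real.exp_add]
    gcongr
    nlinarith
  refine h1.trans ((setLIntegral_le_lintegral _ _).trans ?_)
  rw [gauss_lint (by norm_num) (by positivity)]
  apply ENNReal.ofReal_le_ofReal
  have h2 : Real.exp (-(R ^ 2 / 2)) ≤ 2 / R ^ 2 := by
    rw [Real.exp_neg, le_div_iff₀ (by positivity), inv_mul_le_iff₀ (Real.exp_pos _)]
    have := Real.add_one_le_exp (R ^ 2 / 2)
    linarith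
  calc Real.exp (-(R ^ 2 / 2)) / π * (π / (1 / 2)) = 2 * Real.exp (-(R ^ 2 / 2)) := by field_simp
    _ ≤ 2 * (2 / R ^ 2) := by gcongr
    _ = 4 / R ^ 2 := by ring

lemma bad_upper {a : ℂ} (ha : ‖a‖ ≤ 1) {n : ℕ} (hn : 1 ≤ n) :
    stdCG (Metric.closedBall a (2 ^ n))ᶜ ≤ ENNReal.ofReal (16 * (1 / 4) ^ n) := by
  obtain ⟨m, rfl⟩ : ∃ m, n = m + 1 := ⟨n - 1, by omega⟩
  have h1 : (1 : ℝ) ≤ 2 ^ m := one_le_pow₀ (by norm_num)
  have hsub : (Metric.closedBall a (2 ^ (m + 1)))ᶜ ⊆ {w : ℂ | (2 : ℝ) ^ m ≤ ‖w‖} := by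
    intro w hw
    have h3 : (2 : ℝ) ^ (m + 1) < ‖w - a‖ := by simpa [dist_eq_norm] using hw
    have h4 : ‖w - a‖ ≤ ‖w‖ + ‖a‖ := norm_sub_le _ _
    show (2 : ℝ) ^ m ≤ ‖w‖
    rw [pow_succ] at h3
    linarith
  refine (measure_mono hsub).trans ((tail_upper (by positivity)).trans (le_of_eq ?_))
  congr 1
  rw [← pow_mul, mul_comm m 2, pow_mul, pow_succ, one_div, inv_pow]
  norm_num
  field_simp
  ring

/-- the good event -/
def goodEv (a : ℕ → ℂ) (N : ℕ) (t : ℝ) : Set (ℕ → ℂ) :=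
  {ξ | (∀ n < N, ‖ξ n - a n‖ ≤ t) ∧ ∀ n, N ≤ n → ‖ξ n - a n‖ ≤ 2 ^ n}

lemma goodEv_lower (a : ℕ → ℂ) (ha : ∀ n, ‖a n‖ ≤ 1) {N : ℕ} (hN : 3 ≤ N) {t : ℝ} (ht0 : 0 ≤ t)
    (ht : t ≤ 1) : (t ^ 2 * Real.exp (-4)) ^ N / 2 ≤ coeffLaw.real (goodEv a N t) := by
  classical
  set H : Set (ℕ → ℂ) := Set.pi (Finset.range N : Set ℕ) (fun n => Metric.closedBall (a n) t) with hH
  have hHm : coeffLaw H = ∏ n ∈ Finset.range N, stdCG (Metric.closedBall (a n) t) := by
    unfold coeffLaw
    exact Measure.infinitePi_pi _ (fun i _ => Metric.isClosed_closedBall.measurableSet)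
  let B : ℕ → Set (ℕ → ℂ) := fun k => H ∩ {ξ | ξ (N + k) ∈ (Metric.closedBall (a (N + k)) (2 ^ (N + k)))ᶜ}
  have hB : ∀ k, coeffLaw (B k) ≤ coeffLaw H * ENNReal.ofReal (16 * (1 / 4) ^ (N + k)) := by
    intro k
    have hnot : N + k ∉ Finset.range N := by simp
    let s : ℕ → Set ℂ := fun n => if n = N + k then (Metric.closedBall (a (N + k)) (2 ^ (N + k)))ᶜ
      else Metric.closedBall (a n) t
    have e1 : B k = Set.pi ((insert (N + k) (Finset.range N) : Finset ℕ) : Set ℕ) s := by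
      ext ξ
      simp only [B, hH, Set.mem_inter_iff, Set.mem_pi, Finset.coe_range, Set.mem_Iio,
        Set.mem_ofPred_eq, Finset.coe_insert, Set.mem_insert_iff, s]
      constructor
      · rintro ⟨h1, h2⟩ i hi
        rcases hi with rfl | hi
        · simpa using h2
        · rw [if_neg (by omega)]; exact h1 i hi
      · intro h
        refine ⟨fun i hi => ?_, ?_⟩
        · have := h i (Or.inr hi)
          rwa [if_neg (by omega)] at this
        · have := h (N + k) (Or.inl rfl)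
          rwa [if_pos rfl] at this
    have e2 : coeffLaw (B k) = ∏ n ∈ insert (N + k) (Finset.range N), stdCG (s n) := by
      rw [e1]
      unfold coeffLaw
      apply Measure.infinitePi_pi
      intro i _
      simp only [s]
      split_ifs
      · exact Metric.isClosed_closedBall.measurableSet.compl
      · exact Metric.isClosed_closedBall.measurableSet
    rw [e2, Finset.prod_insert hnot, mul_comm, hHm]
    have e3 : ∏ n ∈ Finset.range N, stdCG (s n) =
        ∏ n ∈ Finset.range N, stdCG (Metric.closedBall (a n) t) := by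
      apply Finset.prod_congr rfl
      intro i hi
      have := Finset.mem_range.1 hi
      simp only [s]
      rw [if_neg (by omega)]
    rw [e3]
    gcongr
    simp only [s, if_true]
    exact bad_upper (ha _) (by omega)
  have hsub : H ⊆ goodEv a N t ∪ ⋃ k, B k := by
    intro ξ hξ
    by_cases h : ∀ n, N ≤ n → ‖ξ n - a n‖ ≤ 2 ^ n
    · left
      refine ⟨fun n hn => ?_, h⟩
      have := hξ n (by simpa using hn)
      simpa [dist_eq_norm] using this
    · right
      push Not at h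
      obtain ⟨n, hn, h2⟩ := h
      obtain ⟨k, rfl⟩ := Nat.exists_eq_add_of_le hn
      refine Set.mem_iUnion.2 ⟨k, hξ, ?_⟩
      simpa [dist_eq_norm] using h2
  have hsum : ∑' k : ℕ, ENNReal.ofReal (16 * (1 / 4 : ℝ) ^ (N + k)) ≤ ENNReal.ofReal (1 / 2) := by
    have hs : Summable (fun k : ℕ => 16 * (1 / 4 : ℝ) ^ (N + k)) := by
      simp_rw [pow_add]
      exact ((summable_geometric_of_lt_one (by norm_num) (by norm_num)).mul_left _).mul_left _
    rw [← ENNReal.ofReal_tsum_of_nonneg (fun k => by positivity) hs]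
    apply ENNReal.ofReal_le_ofReal
    simp_rw [pow_add, ← mul_assoc]
    rw [tsum_mul_left, tsum_geometric_of_lt_one (by norm_num) (by norm_num)]
    have : (1 / 4 : ℝ) ^ N ≤ (1 / 4) ^ 3 := pow_le_pow_of_le_one (by norm_num) (by norm_num) hN
    nlinarith
  have h1 : coeffLaw H ≤ coeffLaw (goodEv a N t) + coeffLaw H * ENNReal.ofReal (1 / 2) := by
    calc coeffLaw H ≤ coeffLaw (goodEv a N t ∪ ⋃ k, B k) := measure_mono hsub
      _ ≤ coeffLaw (goodEv a N t) + coeffLaw (⋃ k, B k) := measure_union_le _ _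
      _ ≤ coeffLaw (goodEv a N t) + ∑' k, coeffLaw (B k) := by gcongr; exact measure_iUnion_le _
      _ ≤ coeffLaw (goodEv a N t) + ∑' k, coeffLaw H * ENNReal.ofReal (16 * (1 / 4) ^ (N + k)) := by
          gcongr with k; exact hB k
      _ ≤ _ := by rw [ENNReal.tsum_mul_left]; gcongr
  have h2 : coeffLaw.real H ≤ coeffLaw.real (goodEv a N t) + coeffLaw.real H * (1 / 2) := by
    have h3 := ENNReal.toReal_mono (by finiteness) h1
    rw [ENNReal.toReal_add (by finiteness) (by finiteness), ENNReal.toReal_mul,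
      ENNReal.toReal_ofReal (by norm_num)] at h3
    exact h3
  have h4 : (t ^ 2 * Real.exp (-4)) ^ N ≤ coeffLaw.real H := by
    have h5 : ENNReal.ofReal ((t ^ 2 * Real.exp (-4)) ^ N) ≤ coeffLaw H := by
      rw [hHm, ENNReal.ofReal_pow (by positivity)]
      calc ENNReal.ofReal (t ^ 2 * Real.exp (-4)) ^ N
          = ∏ _n ∈ Finset.range N, ENNReal.ofReal (t ^ 2 * Real.exp (-4)) := by simp
        _ ≤ _ := Finset.prod_le_prod' (fun n _ => ball_lower (ha n) ht0 ht)
    have h6 := ENNReal.toReal_mono (by finiteness) h5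
    rwa [ENNReal.toReal_ofReal (by positivity)] at h6
  linarith

end

end Pool.Agent.H395Z.Gef
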