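import Pool.Agent.H395Z.GefA

set_option autoImplicit false
set_option linter.style.haveILetI false

namespace Pool.Agent.H395Z.Gef

open MeasureTheory Real

noncomputable section

/-- coefficients of `exp (z^2/2)` in the basis `z^n / sqrt n!` -/
def co (n : ℕ) : ℂ :=
  if Even n then ((Real.sqrt (n.factorial : ℝ) / (2 ^ (n / 2) * ((n / 2).factorial : ℝ)) : ℝ) : ℂ) else 0

lemma co_norm (n : ℕ) : ‖co n‖ ≤ 1 := by
  unfold co
  split_ifs with h
  · obtain ⟨m, rfl⟩ := h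
    have e : (m + m) / 2 = m := by omega
    rw [e, Complex.norm_real, Real.norm_eq_abs, abs_of_nonneg (by positivity),
      div_le_one (by positivity)]
    apply Real.sqrt_le_iff.2
    refine ⟨by positivity, ?_⟩
    have h1 := Nat.choose_mul_factorial_mul_factorial (n := m + m) (k := m) (by omega)
    have h2 := Nat.choose_le_two_pow (m + m) m
    have h3 : (m + m).factorial ≤ (2 ^ m * m.factorial) ^ 2 := by
      rw [← h1, Nat.add_sub_cancel]
      calc (m + m).choose m * m.factorial * m.factorial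
          ≤ 2 ^ (m + m) * m.factorial * m.factorial := by gcongr
        _ = _ := by ring
    exact_mod_cast h3
  · simp

lemma co_hasSum (z : ℂ) :
    HasSum (fun n : ℕ => co n * z ^ n / (Real.sqrt (n.factorial : ℝ) : ℂ)) (Complex.exp (z ^ 2 / 2)) := by
  have h1 : HasSum (fun m : ℕ => co (2 * m) * z ^ (2 * m) / (Real.sqrt ((2 * m).factorial : ℝ) : ℂ))
      (Complex.exp (z ^ 2 / 2)) := by
    have := NormedSpace.expSeries_div_hasSum_exp (z ^ 2 / 2)
    rw [← Complex.exp_eq_exp_ℂ] at this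
    have key : (fun m : ℕ => co (2 * m) * z ^ (2 * m) / (Real.sqrt ((2 * m).factorial : ℝ) : ℂ)) =
        fun n : ℕ => (z ^ 2 / 2) ^ n / (n.factorial : ℂ) := ?_
    · rw [key]; exact this
    funext m
    have e : 2 * m / 2 = m := by omega
    have hs : (Real.sqrt ((2 * m).factorial : ℝ) : ℂ) ≠ 0 := by
      have : Real.sqrt ((2 * m).factorial : ℝ) ≠ 0 := by positivity
      exact_mod_cast this
    have hf : (m.factorial : ℂ) ≠ 0 := by exact_mod_cast m.factorial_ne_zero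
    rw [co, if_pos (even_two_mul m), e]
    push_cast
    rw [div_pow, ← pow_mul]
    field_simp
  have h2 : HasSum (fun m : ℕ => co (2 * m + 1) * z ^ (2 * m + 1) /
      (Real.sqrt ((2 * m + 1).factorial : ℝ) : ℂ)) 0 := by
    have : (fun m : ℕ => co (2 * m + 1) * z ^ (2 * m + 1) /
      (Real.sqrt ((2 * m + 1).factorial : ℝ) : ℂ)) = fun _ => 0 := by
      funext m
      rw [co, if_neg (by simp)]
      simp
    rw [this]
    exact hasSum_zero
  have := HasSum.even_add_odd (f := fun n : ℕ => co n * z ^ n / (Real.sqrt (n.factorial : ℝ) : ℂ)) h1 h2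
  simpa using this

lemma term_bound (x : ℝ) (hx : 0 ≤ x) (n : ℕ) :
    x ^ n / Real.sqrt (n.factorial : ℝ) ≤ Real.exp (x ^ 2 / 2) := by
  have h1 := Real.pow_div_factorial_le_exp (x ^ 2) (by positivity) n
  have hf : (0 : ℝ) < n.factorial := by exact_mod_cast n.factorial_pos
  apply le_of_sq_le_sq _ (by positivity) |>.trans (le_refl _)
  rw [div_pow, Real.sq_sqrt hf.le, ← pow_mul, mul_comm n 2, pow_mul, ← Real.exp_nat_mul]
  refine h1.trans (le_of_eq ?_)
  congr 1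
  push_cast; ring

lemma gef_ne_zero {ξ : ℕ → ℂ} {N : ℕ} {t r δ : ℝ} (hδ : δ ≤ 1) (hδ0 : 0 ≤ δ) (_hr : 0 ≤ r)
    (ht0 : 0 ≤ t)
    (ht : N * t ≤ Real.exp (-(δ ^ 2 * r ^ 2)) / 4) (hN : 8 * Real.exp (17 * r ^ 2) ≤ 2 ^ N)
    (hξ : ξ ∈ goodEv co N t) {z : ℂ} (hre : |z.re| ≤ r) (him : |z.im| ≤ δ * r) : gef ξ z ≠ 0 := by
  obtain ⟨h1, h2⟩ := hξ
  set b : ℕ → ℂ := fun n => (ξ n - co n) * z ^ n / (Real.sqrt (n.factorial : ℝ) : ℂ) with hb
  have hbn : ∀ n, ‖b n‖ = ‖ξ n - co n‖ * (‖z‖ ^ n / Real.sqrt (n.factorial : ℝ)) := by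
    intro n
    simp only [hb, norm_div, norm_mul, norm_pow, Complex.norm_real, Real.norm_eq_abs,
      abs_of_nonneg (Real.sqrt_nonneg _)]
    ring
  have hz2 : ‖z‖ ^ 2 = z.re ^ 2 + z.im ^ 2 := by
    rw [Complex.sq_norm, Complex.normSq_apply]; ring
  have hre2 : z.re ^ 2 ≤ r ^ 2 := by rw [← sq_abs]; gcongr
  have him2 : z.im ^ 2 ≤ δ ^ 2 * r ^ 2 := by rw [← sq_abs, ← mul_pow]; gcongr
  have hδ2 : δ ^ 2 ≤ 1 := by nlinarith
  have him3 : δ ^ 2 * r ^ 2 ≤ r ^ 2 := by nlinarith [sq_nonneg r]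
  set M := Real.exp (‖z‖ ^ 2 / 2 - δ ^ 2 * r ^ 2) with hM
  have hMpos : 0 < M := Real.exp_pos _
  have hF : M ≤ ‖Complex.exp (z ^ 2 / 2)‖ := by
    rw [Complex.norm_exp, hM]
    apply Real.exp_le_exp.2
    have : (z ^ 2 / 2).re = (z.re ^ 2 - z.im ^ 2) / 2 := by
      simp [pow_two]
    rw [this, hz2]
    linarith
  have htail : ∀ k, ‖b (k + N)‖ ≤ (Real.exp (16 * r ^ 2) / 2 ^ N) * (1 / 2) ^ k := by
    intro k
    rw [hbn]
    have e1 := term_bound (4 * ‖z‖) (by positivity) (k + N)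
    have e2 : Real.exp ((4 * ‖z‖) ^ 2 / 2) ≤ Real.exp (16 * r ^ 2) := by
      apply Real.exp_le_exp.2
      rw [mul_pow, hz2]; linarith
    have e3 : ‖z‖ ^ (k + N) / Real.sqrt ((k + N).factorial : ℝ) ≤
        Real.exp (16 * r ^ 2) / 4 ^ (k + N) := by
      rw [le_div_iff₀ (by positivity)]
      refine le_trans (le_of_eq ?_) (e1.trans e2)
      rw [mul_pow]; ring
    calc ‖ξ (k + N) - co (k + N)‖ * (‖z‖ ^ (k + N) / Real.sqrt ((k + N).factorial : ℝ))
        ≤ 2 ^ (k + N) * (Real.exp (16 * r ^ 2) / 4 ^ (k + N)) := by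
          gcongr
          exact h2 _ (by omega)
      _ = _ := by
          have : (4 : ℝ) ^ (k + N) = 2 ^ (k + N) * (2 ^ k * 2 ^ N) := by
            rw [← pow_add, ← mul_pow]; norm_num
          rw [this, one_div, inv_pow]
          field_simp
  have hgeo : HasSum (fun k : ℕ => (Real.exp (16 * r ^ 2) / 2 ^ N) * (1 / 2 : ℝ) ^ k)
      ((Real.exp (16 * r ^ 2) / 2 ^ N) * 2) := hasSum_geometric_two.mul_left _
  have hsumm_tail : Summable (fun k => ‖b (k + N)‖) :=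
    Summable.of_nonneg_of_le (fun _ => norm_nonneg _) htail hgeo.summable
  have hsumm : Summable (fun n => ‖b n‖) := (summable_nat_add_iff N).1 hsumm_tail
  have htail2 : ∑' k, ‖b (k + N)‖ ≤ M / 4 := by
    have e1 : ∑' k, ‖b (k + N)‖ ≤ (Real.exp (16 * r ^ 2) / 2 ^ N) * 2 := by
      rw [← hgeo.tsum_eq]
      exact hsumm_tail.tsum_le_tsum htail hgeo.summable
    refine e1.trans ?_
    have e2 : Real.exp (-(r ^ 2)) ≤ M := by
      apply Real.exp_le_exp.2
      nlinarith [sq_nonneg ‖z‖]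
    have e3 : Real.exp (16 * r ^ 2) = Real.exp (-(r ^ 2)) * Real.exp (17 * r ^ 2) := by
      rw [← Real.exp_add]; congr 1; ring
    rw [div_mul_eq_mul_div, div_le_iff₀ (by positivity), e3]
    have e4 := Real.exp_pos (17 * r ^ 2)
    have e5 := Real.exp_pos (-(r ^ 2))
    nlinarith
  have hhead : ∑ n ∈ Finset.range N, ‖b n‖ ≤ M / 4 := by
    have e1 : ∀ n ∈ Finset.range N, ‖b n‖ ≤ t * Real.exp (‖z‖ ^ 2 / 2) := by
      intro n hn
      rw [hbn]
      gcongr
      · exact h1 n (Finset.mem_range.1 hn)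
      · exact term_bound _ (norm_nonneg _) n
    refine (Finset.sum_le_sum e1).trans ?_
    rw [Finset.sum_const, Finset.card_range, nsmul_eq_mul, ← mul_assoc, hM, sub_eq_add_neg,
      Real.exp_add]
    have := Real.exp_pos (‖z‖ ^ 2 / 2)
    nlinarith
  have hb_tot : ‖∑' n, b n‖ ≤ M / 2 := by
    refine (norm_tsum_le_tsum_norm hsumm).trans ?_
    rw [← hsumm.sum_add_tsum_nat_add N]
    linarith
  have hgef : gef ξ z = Complex.exp (z ^ 2 / 2) + ∑' n, b n := by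
    have := (co_hasSum z).add hsumm.of_norm.hasSum
    rw [← this.tsum_eq, gef]
    congr 1
    funext n
    simp only [hb]
    ring
  intro h0
  rw [hgef] at h0
  have : Complex.exp (z ^ 2 / 2) = -∑' n, b n := by linear_combination h0
  rw [this, norm_neg] at hF
  linarith

/-- the thin rectangle -/
def rect (δ : ℝ) : Set ℂ := {z | |z.re| ≤ 1 ∧ |z.im| ≤ δ}

lemma hole_lower {δ r : ℝ} (hδ : δ ≤ 1) (hδ0 : 0 ≤ δ) (hr : 1 ≤ r) :
    Real.exp (-(76 * δ ^ 2 * r ^ 4 + 2200 * r ^ 3)) ≤ holeProb (rect δ) r := by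
  set N : ℕ := ⌈34 * r ^ 2⌉₊ + 3 with hN
  have hr2 : 1 ≤ r ^ 2 := by nlinarith
  have hN1 : (N : ℝ) ≤ 38 * r ^ 2 := by
    have := Nat.ceil_lt_add_one (show 0 ≤ 34 * r ^ 2 by positivity)
    rw [hN]; push_cast; linarith
  have hN3 : 3 ≤ N := by omega
  have hN3' : (3 : ℝ) ≤ N := by exact_mod_cast hN3
  have hN2 : 8 * Real.exp (17 * r ^ 2) ≤ 2 ^ N := by
    have e1 := Nat.le_ceil (34 * r ^ 2)
    have e2 : Real.exp (1 / 2) ≤ 2 := by
      have := Real.exp_one_lt_d9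
      have h2 : Real.exp (1 / 2) ^ 2 = Real.exp 1 := by rw [← Real.exp_nat_mul]; norm_num
      nlinarith [Real.exp_pos (1 / 2)]
    have e3 : Real.exp (17 * r ^ 2) ≤ 2 ^ ⌈34 * r ^ 2⌉₊ := by
      calc Real.exp (17 * r ^ 2) ≤ Real.exp ((⌈34 * r ^ 2⌉₊ : ℝ) * (1 / 2)) := by
            apply Real.exp_le_exp.2; linarith
        _ = Real.exp (1 / 2) ^ ⌈34 * r ^ 2⌉₊ := Real.exp_nat_mul _ _
        _ ≤ _ := by gcongr
    rw [hN, pow_add]
    linarith
  set t : ℝ := Real.exp (-(δ ^ 2 * r ^ 2)) / (4 * N) with ht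
  have ht0 : 0 < t := by positivity
  have hE : Real.exp (-(δ ^ 2 * r ^ 2)) ≤ 1 := by
    apply Real.exp_le_one_iff.2
    have : 0 ≤ δ ^ 2 * r ^ 2 := by positivity
    linarith
  have ht1 : t ≤ 1 := by
    rw [ht, div_le_one (by positivity)]; linarith
  have htN : N * t ≤ Real.exp (-(δ ^ 2 * r ^ 2)) / 4 := by
    rw [ht]; apply le_of_eq; field_simp
  have hsub : goodEv co N t ⊆ {ξ : ℕ → ℂ | ∀ w ∈ rect δ, gef ξ ((r : ℂ) * w) ≠ 0} := by
    intro ξ hξ w hw
    apply gef_ne_zero hδ hδ0 (by linarith) ht0.le htN hN2 hξ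
    · rw [Complex.re_ofReal_mul, abs_mul, abs_of_nonneg (by linarith : 0 ≤ r)]
      nlinarith [hw.1]
    · rw [Complex.im_ofReal_mul, abs_mul, abs_of_nonneg (by linarith : 0 ≤ r)]
      nlinarith [hw.2]
  have h1 := goodEv_lower co co_norm hN3 ht0.le ht1
  have h2 : coeffLaw.real (goodEv co N t) ≤ holeProb (rect δ) r := measureReal_mono hsub
  refine le_trans ?_ (h1.trans h2)
  have h3 : Real.exp (-(26 * r)) ≤ 1 / (4 * N) := by
    rw [Real.exp_neg, one_div]
    apply inv_anti₀ (by positivity)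
    have e1 : 13 * r ≤ Real.exp (13 * r) := by linarith [Real.add_one_le_exp (13 * r)]
    have e2 : Real.exp (26 * r) = Real.exp (13 * r) ^ 2 := by
      rw [← Real.exp_nat_mul]; congr 1; push_cast; ring
    rw [e2]
    nlinarith
  have h4 : Real.exp (-(δ ^ 2 * r ^ 2) + -(26 * r)) ≤ t := by
    rw [Real.exp_add, ht, div_eq_mul_one_div]
    gcongr
  have h5 : Real.exp (-(2 * δ ^ 2 * r ^ 2 + 52 * r + 4)) ≤ t ^ 2 * Real.exp (-4) := by
    calc Real.exp (-(2 * δ ^ 2 * r ^ 2 + 52 * r + 4))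
        = Real.exp (-(δ ^ 2 * r ^ 2) + -(26 * r)) ^ 2 * Real.exp (-4) := by
          rw [← Real.exp_nat_mul, ← Real.exp_add]; congr 1; push_cast; ring
      _ ≤ _ := by gcongr
  have h6 : Real.exp (-1) ≤ 1 / 2 := by
    rw [Real.exp_neg, one_div]
    apply inv_anti₀ (by norm_num)
    linarith [Real.add_one_le_exp 1]
  calc Real.exp (-(76 * δ ^ 2 * r ^ 4 + 2200 * r ^ 3))
      ≤ Real.exp ((N : ℝ) * -(2 * δ ^ 2 * r ^ 2 + 52 * r + 4) + -1) := by
        apply Real.exp_le_exp.2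
        have e1 : (N : ℝ) * (2 * δ ^ 2 * r ^ 2 + 52 * r + 4) ≤
            38 * r ^ 2 * (2 * δ ^ 2 * r ^ 2 + 52 * r + 4) := by gcongr
        have e2 : r ^ 2 ≤ r ^ 3 := by nlinarith
        nlinarith
    _ = Real.exp (-(2 * δ ^ 2 * r ^ 2 + 52 * r + 4)) ^ N * Real.exp (-1) := by
        rw [Real.exp_add, Real.exp_nat_mul]
    _ ≤ (t ^ 2 * Real.exp (-4)) ^ N * (1 / 2) := by gcongr
    _ = _ := by ring

lemma rect_norm {δ : ℝ} (hδ : δ ≤ 1) {z : ℂ} (hz : z ∈ rect δ) : ‖z‖ ≤ 2 := by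
  have := Complex.norm_le_abs_re_add_abs_im z
  linarith [hz.1, hz.2]

lemma nthDiam_lower {δ : ℝ} (hδ : δ ≤ 1) (hδ0 : 0 ≤ δ) (n : ℕ) (hn : 2 ≤ n) :
    Real.exp (-4) ≤ nthDiam (rect δ) n := by
  have hn' : (2 : ℝ) ≤ n := by exact_mod_cast hn
  have hp : 0 ≤ (2 : ℝ) / ((n : ℝ) * ((n : ℝ) - 1)) := by
    apply div_nonneg (by norm_num); nlinarith
  have hbdd : BddAbove (Set.range (fun z : Fin n → rect δ =>
      (∏ j : Fin n, ∏ i ∈ Finset.Iio j, ‖(z j : ℂ) - (z i : ℂ)‖) ^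
        ((2 : ℝ) / ((n : ℝ) * ((n : ℝ) - 1))))) := by
    refine ⟨(∏ j : Fin n, ∏ _i ∈ Finset.Iio j, (4 : ℝ)) ^ ((2 : ℝ) / ((n : ℝ) * ((n : ℝ) - 1))), ?_⟩
    rintro _ ⟨z, rfl⟩
    apply Real.rpow_le_rpow (by positivity) _ hp
    apply Finset.prod_le_prod (fun j _ => by positivity)
    intro j _
    apply Finset.prod_le_prod (fun i _ => by positivity)
    intro i _
    linarith [norm_sub_le (z j : ℂ) (z i : ℂ), rect_norm hδ (z j).2, rect_norm hδ (z i).2]
  let z : Fin n → rect δ := fun j => ⟨(((j.val : ℝ) / n : ℝ) : ℂ), by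
    have : (j.val : ℝ) < n := by exact_mod_cast j.2
    constructor
    · rw [Complex.ofReal_re, abs_of_nonneg (by positivity), div_le_one (by linarith)]; linarith
    · rw [Complex.ofReal_im, abs_zero]; exact hδ0⟩
  refine le_trans ?_ (le_ciSup hbdd z)
  have h1 : ∀ j : Fin n, Real.exp (-(n : ℝ)) ≤ ∏ i ∈ Finset.Iio j, ‖(z j : ℂ) - (z i : ℂ)‖ := by
    intro j
    have e1 : ∏ i ∈ Finset.Iio j, ‖(z j : ℂ) - (z i : ℂ)‖ =
        ∏ i ∈ Finset.range j.val, (((j.val - i : ℕ) : ℝ) / n) := by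
      rw [← Nat.Iio_eq_range, ← Fin.map_valEmbedding_Iio, Finset.prod_map]
      apply Finset.prod_congr rfl
      intro i hi
      have hij : i.val ≤ j.val := (Finset.mem_Iio.1 hi).le
      have hij' : (i.val : ℝ) ≤ j.val := by exact_mod_cast hij
      show ‖(((j.val : ℝ) / n : ℝ) : ℂ) - (((i.val : ℝ) / n : ℝ) : ℂ)‖ = _
      rw [← Complex.ofReal_sub, Complex.norm_real, Real.norm_eq_abs, ← sub_div,
        abs_of_nonneg (div_nonneg (by linarith) (by linarith))]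
      simp [Nat.cast_sub hij]
    rw [e1, Finset.prod_div_distrib, Finset.prod_const, Finset.card_range, ← Nat.cast_prod,
      ← Nat.descFactorial_eq_prod_range, Nat.descFactorial_self, Real.exp_neg]
    have e2 := Real.pow_div_factorial_le_exp (n : ℝ) (by linarith) j.val
    have hf : (0 : ℝ) < (j.val).factorial := by exact_mod_cast (j.val).factorial_pos
    rw [← inv_div]
    exact inv_anti₀ (by positivity) e2
  have h2 : Real.exp (-(n : ℝ) ^ 2) ≤
      ∏ j : Fin n, ∏ i ∈ Finset.Iio j, ‖(z j : ℂ) - (z i : ℂ)‖ := by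
    calc Real.exp (-(n : ℝ) ^ 2) = ∏ _j : Fin n, Real.exp (-(n : ℝ)) := by
          rw [Finset.prod_const, Finset.card_univ, Fintype.card_fin, ← Real.exp_nat_mul]
          congr 1; ring
      _ ≤ _ := Finset.prod_le_prod (fun _ _ => (Real.exp_pos _).le) (fun j _ => h1 j)
  refine le_trans ?_ (Real.rpow_le_rpow (Real.exp_pos _).le h2 hp)
  rw [← Real.exp_mul]
  apply Real.exp_le_exp.2
  have h3 : 0 < (n : ℝ) * ((n : ℝ) - 1) := by nlinarith
  rw [← mul_div_assoc, le_div_iff₀ h3]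
  nlinarith

lemma cap_lower {δ : ℝ} (hδ : δ ≤ 1) (hδ0 : 0 ≤ δ) : Real.exp (-4) ≤ cap (rect δ) :=
  le_ciInf (fun n => nthDiam_lower hδ hδ0 (n + 2) (by omega))

lemma rect_convex (δ : ℝ) : Convex ℝ (rect δ) := by
  intro x hx y hy a b ha hb hab
  constructor
  · simp only [Complex.add_re, Complex.real_smul, Complex.re_ofReal_mul]
    calc |a * x.re + b * y.re| ≤ |a * x.re| + |b * y.re| := abs_add_le _ _
      _ = a * |x.re| + b * |y.re| := by rw [abs_mul, abs_mul, abs_of_nonneg ha, abs_of_nonneg hb]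
      _ ≤ a * 1 + b * 1 := by gcongr; exacts [hx.1, hy.1]
      _ = 1 := by linarith
  · simp only [Complex.add_im, Complex.real_smul, Complex.im_ofReal_mul]
    calc |a * x.im + b * y.im| ≤ |a * x.im| + |b * y.im| := abs_add_le _ _
      _ = a * |x.im| + b * |y.im| := by rw [abs_mul, abs_mul, abs_of_nonneg ha, abs_of_nonneg hb]
      _ ≤ a * δ + b * δ := by gcongr; exacts [hx.2, hy.2]
      _ = δ := by rw [← add_mul, hab, one_mul]

lemma rect_compact {δ : ℝ} (hδ : δ ≤ 1) : IsCompact (rect δ) := by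
  apply Metric.isCompact_of_isClosed_isBounded
  · exact (isClosed_le (Complex.continuous_re.abs) continuous_const).inter
      (isClosed_le (Complex.continuous_im.abs) continuous_const)
  · apply (Metric.isBounded_closedBall (x := (0 : ℂ)) (r := 2)).subset
    intro z hz
    simpa using rect_norm hδ hz

lemma rect_interior {δ : ℝ} (hδ : δ ≤ 1) (hδ0 : 0 < δ) : (interior (rect δ)).Nonempty := by
  refine ⟨0, mem_interior.2 ⟨Metric.ball 0 δ, ?_, Metric.isOpen_ball, Metric.mem_ball_self hδ0⟩⟩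
  intro z hz
  have h : ‖z‖ < δ := by simpa using hz
  exact ⟨by linarith [Complex.abs_re_le_norm z], by linarith [Complex.abs_im_le_norm z]⟩

theorem main : ∃ K : Set ℂ, IsCompact K ∧ IsConnected K ∧ (interior K).Nonempty ∧ Convex ℝ K ∧
    (∃ c : ℝ, c < Real.exp 2 / 4 * cap K ^ 4 ∧
      ∀ᶠ r : ℝ in Filter.atTop, 0 < holeProb K r ∧ holeExp K r / r ^ 4 ≤ c) ∧
    ¬ Filter.Tendsto (fun r : ℝ => holeExp K r / r ^ 4) Filter.atTop
      (nhds (Real.exp 2 / 4 * cap K ^ 4)) := by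
  set δ : ℝ := Real.exp (-8) / 20 with hδ
  have hδ0 : 0 < δ := by positivity
  have hE : Real.exp (-8) ≤ 1 := Real.exp_le_one_iff.2 (by norm_num)
  have hδ1 : δ ≤ 1 := by rw [hδ]; linarith
  have hint := rect_interior hδ1 hδ0
  have hc : 77 * δ ^ 2 < Real.exp 2 / 4 * cap (rect δ) ^ 4 := by
    have h1 := cap_lower hδ1 hδ0.le
    have h2 : Real.exp (-8) ^ 2 ≤ cap (rect δ) ^ 4 := by
      calc Real.exp (-8) ^ 2 = Real.exp (-4) ^ 4 := by
            rw [← Real.exp_nat_mul, ← Real.exp_nat_mul]; norm_num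
        _ ≤ _ := by gcongr
    have h3 : 1 ≤ Real.exp 2 := Real.one_le_exp (by norm_num)
    have h4 : 0 < Real.exp (-8) ^ 2 := by positivity
    rw [hδ, div_pow]
    nlinarith
  have hev : ∀ᶠ r : ℝ in Filter.atTop, 0 < holeProb (rect δ) r ∧
      holeExp (rect δ) r / r ^ 4 ≤ 77 * δ ^ 2 := by
    filter_upwards [Filter.eventually_ge_atTop 1, Filter.eventually_ge_atTop (2200 / δ ^ 2)]
      with r hr1 hr2
    have h1 := hole_lower hδ1 hδ0.le hr1
    refine ⟨(Real.exp_pos _).trans_le h1, ?_⟩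
    have h2 := Real.log_le_log (Real.exp_pos _) h1
    rw [Real.log_exp] at h2
    rw [div_le_iff₀ (by positivity)] at hr2 ⊢
    unfold holeExp
    have h3 : 2200 * r ^ 3 ≤ r * δ ^ 2 * r ^ 3 := by gcongr
    nlinarith
  refine ⟨rect δ, rect_compact hδ1, (rect_convex δ).isConnected (hint.mono interior_subset), hint,
    rect_convex δ, ⟨_, hc, hev⟩, fun h => ?_⟩
  have := le_of_tendsto h (hev.mono (fun r hr => hr.2))
  linarith

end

end Pool.Agent.H395Z.Gef
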