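import Mathlib

set_option autoImplicit false

namespace Pool.Agent.H395Z.Gef

open MeasureTheory

noncomputable section

/-- The standard complex Gaussian law, with density `exp (-|w|^2) / π` on `ℂ`. -/
def stdCG : Measure ℂ :=
  volume.withDensity (fun w : ℂ => ENNReal.ofReal (Real.exp (-‖w‖ ^ 2) / Real.pi))

/-- The law of an i.i.d. sequence `ξ 0, ξ 1, …` of standard complex Gaussians. -/
def coeffLaw : Measure (ℕ → ℂ) := Measure.infinitePi (fun _ : ℕ => stdCG)

/-- The Gaussian entire function with coefficients `ξ`. -/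
def gef (ξ : ℕ → ℂ) (z : ℂ) : ℂ := ∑' n : ℕ, ξ n * z ^ n / (Real.sqrt (n.factorial : ℝ) : ℂ)

/-- The probability that the Gaussian entire function has no zero in `r K`. -/
def holeProb (K : Set ℂ) (r : ℝ) : ℝ :=
  coeffLaw.real {ξ : ℕ → ℂ | ∀ w ∈ K, gef ξ ((r : ℂ) * w) ≠ 0}

/-- The hole probability exponent `p_{H,K}(f; r)`. -/
def holeExp (K : Set ℂ) (r : ℝ) : ℝ := -Real.log (holeProb K r)

/-- The `n`-th diameter of `K`: the supremum over points `z 0, …, z (n-1)` of `K` of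
`(∏_{i<j} |z j - z i|) ^ (2 / (n (n - 1)))`. -/
def nthDiam (K : Set ℂ) (n : ℕ) : ℝ :=
  ⨆ z : Fin n → K, (∏ j : Fin n, ∏ i ∈ Finset.Iio j, ‖(z j : ℂ) - (z i : ℂ)‖) ^
    ((2 : ℝ) / ((n : ℝ) * ((n : ℝ) - 1)))

/-- The transfinite diameter (logarithmic capacity) of `K`: the infimum over `n ≥ 2` of the
decreasing sequence of `n`-th diameters. -/
def cap (K : Set ℂ) : ℝ := ⨅ n : ℕ, nthDiam K (n + 2)

end

end Pool.Agent.H395Z.Gef
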