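import Mathlib

set_option autoImplicit false

namespace Pool.Agent.H395Z.Gersten


abbrev F : Type := FreeGroup (Fin 3)

def a : F := FreeGroup.of 0

def psi (n : ℤ) : F →* F := FreeGroup.lift (fun i : Fin 3 => FreeGroup.of i * a ^ (n * (i.val : ℤ)))

lemma psi_of (n : ℤ) (i : Fin 3) : psi n (FreeGroup.of i) = FreeGroup.of i * a ^ (n * (i.val : ℤ)) := by
  simp [psi]

@[simp] lemma psi_a (n : ℤ) : psi n a = a := by
  have := psi_of n 0
  simpa [a] using this

@[simp] lemma psi_zero (x : F) : psi 0 x = x := by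
  have : psi 0 = MonoidHom.id F := by
    apply FreeGroup.ext_hom
    intro i
    simp [psi_of]
  rw [this]; rfl

lemma psi_add (m n : ℤ) (x : F) : psi m (psi n x) = psi (m + n) x := by
  have : (psi m).comp (psi n) = psi (m + n) := by
    apply FreeGroup.ext_hom
    intro i
    simp only [MonoidHom.comp_apply, psi_of, map_mul, map_zpow, psi_a]
    rw [mul_assoc, ← zpow_add, add_mul]
  exact DFunLike.congr_fun this x

@[ext] structure GG : Type where
  l : F
  r : ℤ

instance : Mul GG := ⟨fun x y => ⟨x.l * psi x.r y.l, x.r + y.r⟩⟩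
instance : One GG := ⟨⟨1, 0⟩⟩
instance : Inv GG := ⟨fun x => ⟨psi (-x.r) x.l⁻¹, -x.r⟩⟩

@[simp] lemma mul_l (x y : GG) : (x * y).l = x.l * psi x.r y.l := rfl
@[simp] lemma mul_r (x y : GG) : (x * y).r = x.r + y.r := rfl
@[simp] lemma one_l : (1 : GG).l = 1 := rfl
@[simp] lemma one_r : (1 : GG).r = 0 := rfl
@[simp] lemma inv_l (x : GG) : (x⁻¹).l = psi (-x.r) x.l⁻¹ := rfl
@[simp] lemma inv_r (x : GG) : (x⁻¹).r = -x.r := rfl

instance : Group GG := Group.ofLeftAxioms
  (by
    intro x y z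
    ext
    · simp [psi_add, mul_assoc]
    · simp [add_assoc])
  (by intro x; ext <;> simp)
  (by intro x; ext <;> simp)

def inl : F →* GG where
  toFun f := ⟨f, 0⟩
  map_one' := rfl
  map_mul' x y := by ext <;> simp

@[simp] lemma inl_l (f : F) : (inl f).l = f := rfl
@[simp] lemma inl_r (f : F) : (inl f).r = 0 := rfl

lemma inl_inj : Function.Injective inl := by
  intro x y h
  simpa using congrArg GG.l h

def rt : GG →* Multiplicative ℤ where
  toFun g := Multiplicative.ofAdd g.r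
  map_one' := rfl
  map_mul' x y := by simp [ofAdd_add]

lemma zpow_r (g : GG) (k : ℤ) : (g ^ k).r = k * g.r := by
  have h := map_zpow rt g k
  have h2 : Multiplicative.toAdd (rt (g ^ k)) = Multiplicative.toAdd ((rt g) ^ k) := by rw [h]
  simpa [rt] using h2

lemma pow_r (g : GG) (k : ℕ) : (g ^ k).r = k * g.r := by
  have := zpow_r g k
  rwa [zpow_natCast] at this

def t : GG := ⟨1, 1⟩

lemma t_zpow (k : ℤ) : t ^ k = ⟨1, k⟩ := by
  induction k using Int.induction_on with
  | zero => rfl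
  | succ n ih => rw [zpow_add_one, ih]; ext <;> simp [t]
  | pred n ih => rw [zpow_sub_one, ih]; ext <;> simp [t, sub_eq_add_neg]

/-- cocycle lemma -/
lemma exists_cocycle (e : F → Fin 3 → ℤ) :
    ∃ s : F → ℤ, s 1 = 0 ∧ ∀ w j, s (w * FreeGroup.of j) = s w + e w j := by
  let tau : Fin 3 → Equiv.Perm (F × ℤ) := fun j =>
    { toFun := fun p => (p.1 * FreeGroup.of j, p.2 + e p.1 j)
      invFun := fun p => (p.1 * (FreeGroup.of j)⁻¹, p.2 - e (p.1 * (FreeGroup.of j)⁻¹) j)
      left_inv := by intro p; simp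
      right_inv := by intro p; simp }
  let P : F →* Equiv.Perm (F × ℤ) := FreeGroup.lift (fun j => (tau j)⁻¹)
  have hP : ∀ j, P (FreeGroup.of j)⁻¹ = tau j := by
    intro j; simp [P]
  have h1 : ∀ u : F, ∀ p : F × ℤ, (P u⁻¹ p).1 = p.1 * u := by
    intro u
    induction u using FreeGroup.induction_on with
    | C1 => intro p; simp
    | of x => intro p; rw [hP]; rfl
    | inv_of x ih =>
      intro p
      have := ih (P (FreeGroup.of x) p)
      rw [← Equiv.Perm.mul_apply, ← map_mul, inv_mul_cancel, map_one, Equiv.Perm.one_apply] at this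
      rw [inv_inv, this]; simp
    | mul x y ihx ihy =>
      intro p
      rw [mul_inv_rev, map_mul, Equiv.Perm.mul_apply, ihy, ihx, mul_assoc]
  refine ⟨fun w => (P w⁻¹ (1, 0)).2, by simp, ?_⟩
  intro w j
  have h2 := h1 w (1, 0)
  simp only [one_mul] at h2
  show (P (w * FreeGroup.of j)⁻¹ (1, 0)).2 = _
  rw [mul_inv_rev, map_mul, Equiv.Perm.mul_apply, hP]
  show (P w⁻¹ (1, 0)).2 + e (P w⁻¹ (1, 0)).1 j = _
  rw [h2]

lemma cocycle_a {e : F → Fin 3 → ℤ} {s : F → ℤ} (hs : ∀ w j, s (w * FreeGroup.of j) = s w + e w j)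
    (he : ∀ w, e w 0 = 0) (w : F) (k : ℤ) : s (w * a ^ k) = s w := by
  induction k using Int.induction_on with
  | zero => simp
  | succ n ih => rw [zpow_add_one, ← mul_assoc]; unfold a; rw [hs, he]; simpa [a] using ih
  | pred n ih =>
    have := hs (w * a ^ (-(n : ℤ) - 1)) 0
    rw [he, add_zero, mul_assoc] at this
    have h2 : a ^ (-(n : ℤ) - 1) * FreeGroup.of 0 = a ^ (-(n : ℤ)) := by
      rw [zpow_sub_one]; simp [a]
    rw [h2] at this
    rw [← this, ih]

lemma a_zpow_eq_one {k : ℤ} (h : a ^ k = 1) : k = 0 := by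
  let f : F →* Multiplicative ℤ := FreeGroup.lift (fun _ => Multiplicative.ofAdd 1)
  have h1 : f a = Multiplicative.ofAdd 1 := by simp [f, a]
  have h2 := congrArg f h
  rw [map_zpow, h1, f.map_one] at h2
  have h3 := congrArg Multiplicative.toAdd h2
  rw [toAdd_zpow, toAdd_ofAdd, toAdd_one] at h3
  simpa using h3

/-- Hall's argument: finite permutation representations agreeing with an action on given words -/
lemma hall_aux {X : Type} [MulAction F X] (w : F) : ∀ y : X, ∃ Y0 : Finset X, y ∈ Y0 ∧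
    ∀ (Y : Finset X), Y0 ⊆ Y → ∀ rho : F →* Equiv.Perm Y,
      (∀ (i : Fin 3) (z : Y), FreeGroup.of i • (z : X) ∈ Y →
        (rho (FreeGroup.of i) z : X) = FreeGroup.of i • (z : X)) →
      ∀ z : Y, (z : X) = y → (rho w z : X) = w • y := by
  classical
  induction w using FreeGroup.induction_on with
  | C1 =>
    intro y
    refine ⟨{y}, by simp, ?_⟩
    intro Y _ rho _ z hz
    simpa using hz
  | of x =>
    intro y
    refine ⟨{y, FreeGroup.of x • y}, by simp, ?_⟩
    intro Y hY rho h z hz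
    rw [h x z (by rw [hz]; exact hY (by simp)), hz]
  | inv_of x _ =>
    intro y
    refine ⟨{y, (FreeGroup.of x)⁻¹ • y}, by simp, ?_⟩
    intro Y hY rho h z hz
    have hm : (FreeGroup.of x)⁻¹ • y ∈ Y := hY (by simp)
    have h1 := h x ⟨_, hm⟩ (by simp only [smul_inv_smul]; exact hY (by simp))
    simp only [smul_inv_smul] at h1
    have h2 : rho (FreeGroup.of x) ⟨_, hm⟩ = z := Subtype.ext (by rw [h1, hz])
    rw [map_inv, ← h2]
    simp
  | mul u v ihu ihv =>
    intro y
    obtain ⟨Y1, hy1, h1⟩ := ihv y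
    obtain ⟨Y2, hy2, h2⟩ := ihu (v • y)
    refine ⟨Y1 ∪ Y2, by simp [hy1], ?_⟩
    intro Y hY rho h z hz
    rw [map_mul, Equiv.Perm.mul_apply, mul_smul]
    exact h2 Y (Finset.subset_union_right.trans hY) rho h _
      (h1 Y (Finset.subset_union_left.trans hY) rho h z hz)

lemma exists_rho {X : Type} [MulAction F X] (Y : Finset X) : ∃ rho : F →* Equiv.Perm Y,
    ∀ (i : Fin 3) (z : Y), FreeGroup.of i • (z : X) ∈ Y →
        (rho (FreeGroup.of i) z : X) = FreeGroup.of i • (z : X) := by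
  have : ∀ i : Fin 3, ∃ σ : Equiv.Perm Y, ∀ (z : Y), FreeGroup.of i • (z : X) ∈ Y →
      (σ z : X) = FreeGroup.of i • (z : X) := by
    intro i
    obtain ⟨σ, hσ⟩ := Equiv.Perm.exists_extending_pair
      (f := fun z : {z : Y // FreeGroup.of i • (z : X) ∈ Y} => z.1)
      (g := fun z : {z : Y // FreeGroup.of i • (z : X) ∈ Y} => (⟨_, z.2⟩ : Y))
      Subtype.val_injective
      (by
        intro z1 z2 h
        have h1 := congrArg Subtype.val h
        simp only [smul_left_cancel_iff] at h1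
        exact Subtype.ext (Subtype.ext h1))
    refine ⟨σ, fun z hz => ?_⟩
    have := hσ ⟨z, hz⟩
    exact congrArg Subtype.val this
  choose σ hσ using this
  refine ⟨FreeGroup.lift σ, fun i z hz => ?_⟩
  simp only [FreeGroup.lift_apply_of]
  exact hσ i z hz

lemma hall (w x : F) (hx : x ∉ Subgroup.zpowers w) :
    ∃ (Y : Type) (_ : Fintype Y) (_ : DecidableEq Y) (rho : F →* Equiv.Perm Y) (y0 : Y),
      rho w y0 = y0 ∧ rho x y0 ≠ y0 := by
  classical
  let X := F ⧸ Subgroup.zpowers w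
  let y : X := ((1 : F) : X)
  obtain ⟨Y1, hy1, h1⟩ := hall_aux w y
  obtain ⟨Y2, hy2, h2⟩ := hall_aux x y
  obtain ⟨rho, hrho⟩ := exists_rho (Y1 ∪ Y2)
  refine ⟨(Y1 ∪ Y2 : Finset X), inferInstance, inferInstance, rho, ⟨y, by simp [hy1]⟩, ?_, ?_⟩
  · apply Subtype.ext
    rw [h1 _ Finset.subset_union_left rho hrho _ rfl]
    show ((w * 1 : F) : X) = ((1 : F) : X)
    rw [QuotientGroup.eq]
    simp
  · intro h
    have h3 := congrArg Subtype.val h
    rw [h2 _ Finset.subset_union_right rho hrho _ rfl] at h3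
    have h4 : ((x * 1 : F) : X) = ((1 : F) : X) := h3
    rw [QuotientGroup.eq] at h4
    apply hx
    simpa using h4

end Pool.Agent.H395Z.Gersten
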