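import Pool.Agent.H395Z.GerstenA

set_option autoImplicit false
set_option linter.style.haveILetI false

namespace Pool.Agent.H395Z.Gersten

/-- the map to `ZMod q` -/
def pq (q : ℕ) : GG →* Multiplicative (ZMod q) where
  toFun g := Multiplicative.ofAdd (g.r : ZMod q)
  map_one' := by simp
  map_mul' x y := by simp [ofAdd_add]

lemma mem_ker_pq (q : ℕ) (g : GG) : g ∈ (pq q).ker ↔ (q : ℤ) ∣ g.r := by
  rw [MonoidHom.mem_ker]
  show Multiplicative.ofAdd (g.r : ZMod q) = 1 ↔ _
  rw [ofAdd_eq_one, ZMod.intCast_zmod_eq_zero_iff_dvd]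

lemma finiteIndex_ker_pq (q : ℕ) (hq : q ≠ 0) : (pq q).ker.FiniteIndex := by
  haveI : NeZero q := ⟨hq⟩
  infer_instance

lemma rho_psi {P : Type} [Group P] (rho : F →* P) (n : ℕ) (hn : rho a ^ n = 1) (m m' : ℤ)
    (h : (n : ℤ) ∣ m - m') (x : F) : rho (psi m x) = rho (psi m' x) := by
  have : rho.comp (psi m) = rho.comp (psi m') := by
    apply FreeGroup.ext_hom
    intro i
    simp only [MonoidHom.comp_apply, psi_of, map_mul, map_zpow]
    obtain ⟨c, hc⟩ := h
    have hm : m = m' + n * c := by linarith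
    rw [hm, add_mul, zpow_add, mul_assoc (n : ℤ), zpow_mul (rho a) (n : ℤ), zpow_natCast, hn]
    simp
  exact DFunLike.congr_fun this x

lemma sep_fiber (w x : F) (hx : x ∉ Subgroup.zpowers w) :
    ∃ L : Subgroup GG, L.FiniteIndex ∧ inl w ∈ L ∧ inl x ∉ L := by
  classical
  obtain ⟨Y, _, _, rho, y0, h1, h2⟩ := hall w x hx
  obtain ⟨n, hnpos, hn⟩ : ∃ n : ℕ, 0 < n ∧ rho a ^ n = 1 :=
    ⟨Fintype.card (Equiv.Perm Y), Fintype.card_pos, pow_card_eq_one⟩
  haveI : NeZero n := ⟨hnpos.ne'⟩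
  have key : ∀ (j : ZMod n) (m : ℤ), (n : ℤ) ∣ ((j + (m : ZMod n)).val : ℤ) - (j.val + m) := by
    intro j m
    rw [← ZMod.intCast_zmod_eq_zero_iff_dvd]
    push_cast
    simp
  letI : MulAction GG (Y × ZMod n) :=
    { smul := fun g p => (rho (psi (-((p.2 + (g.r : ZMod n)).val : ℤ)) g.l) p.1, p.2 + (g.r : ZMod n))
      one_smul := by
        intro p
        show (rho (psi _ (1 : F)) p.1, p.2 + ((0 : ℤ) : ZMod n)) = p
        simp
      mul_smul := by
        intro g h p
        show (rho (psi (-((p.2 + ((g.r + h.r : ℤ) : ZMod n)).val : ℤ)) (g.l * psi g.r h.l)) p.1,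
            p.2 + ((g.r + h.r : ℤ) : ZMod n)) =
          (rho (psi (-(((p.2 + (h.r : ZMod n)) + (g.r : ZMod n)).val : ℤ)) g.l)
            (rho (psi (-((p.2 + (h.r : ZMod n)).val : ℤ)) h.l) p.1),
            (p.2 + (h.r : ZMod n)) + (g.r : ZMod n))
        have e : p.2 + ((g.r + h.r : ℤ) : ZMod n) = (p.2 + (h.r : ZMod n)) + (g.r : ZMod n) := by
          push_cast; ring
        rw [e, map_mul, map_mul, Equiv.Perm.mul_apply, psi_add]
        congr 2
        apply congrFun
        apply congrArg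
        apply rho_psi rho n hn
        have := key (p.2 + (h.r : ZMod n)) g.r
        obtain ⟨c, hc⟩ := this
        exact ⟨-c, by linarith⟩ }
  have hs : ∀ f : F, inl f • ((y0, 0) : Y × ZMod n) = (rho f y0, 0) := by
    intro f
    show (rho (psi (-(((0 : ZMod n) + ((0 : ℤ) : ZMod n)).val : ℤ)) f) y0,
      (0 : ZMod n) + ((0 : ℤ) : ZMod n)) = _
    simp
  refine ⟨MulAction.stabilizer GG ((y0, 0) : Y × ZMod n), ?_, ?_, ?_⟩
  · haveI : Finite (GG ⧸ MulAction.stabilizer GG ((y0, 0) : Y × ZMod n)) :=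
      Finite.of_equiv _ (MulAction.orbitEquivQuotientStabilizer GG ((y0, 0) : Y × ZMod n))
    exact Subgroup.finiteIndex_of_finite_quotient
  · rw [MulAction.mem_stabilizer_iff, hs, h1]
  · rw [MulAction.mem_stabilizer_iff, hs]
    intro h
    exact h2 (congrArg Prod.fst h)

lemma eq_inl {g : GG} (h : g.r = 0) : g = inl g.l := by
  ext <;> simp [h]

theorem cyc_sep (g h : GG) (hh : h ∉ Subgroup.zpowers g) :
    ∃ K : Subgroup GG, K.FiniteIndex ∧ Subgroup.zpowers g ≤ K ∧ h ∉ K := by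
  by_cases hd : g.r ∣ h.r
  · obtain ⟨c, hc⟩ := hd
    by_cases hg : g.r = 0
    · have hh0 : h.r = 0 := by rw [hc, hg, zero_mul]
      have hx : h.l ∉ Subgroup.zpowers g.l := by
        rintro ⟨k, hk⟩
        apply hh
        refine ⟨k, ?_⟩
        show g ^ k = h
        rw [eq_inl hg, eq_inl hh0, ← map_zpow]
        exact congrArg inl hk
      obtain ⟨L, hL, h1, h2⟩ := sep_fiber g.l h.l hx
      refine ⟨L, hL, ?_, ?_⟩
      · rw [Subgroup.zpowers_le, eq_inl hg]; exact h1
      · rw [eq_inl hh0]; exact h2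
    · have hy0 : (g ^ (-c) * h).r = 0 := by rw [mul_r, zpow_r, hc]; ring
      have hy1 : (g ^ (-c) * h).l ∉ Subgroup.zpowers (1 : F) := by
        intro hm
        rw [Subgroup.zpowers_one_eq_bot, Subgroup.mem_bot] at hm
        apply hh
        refine ⟨c, ?_⟩
        have : g ^ (-c) * h = 1 := by rw [eq_inl hy0, hm, map_one]
        show g ^ c = h
        rw [zpow_neg, inv_mul_eq_one] at this
        exact this
      obtain ⟨L, hL, -, h2⟩ := sep_fiber 1 _ hy1
      rw [← eq_inl hy0] at h2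
      let N := L.normalCore
      let r := N.index
      have hr : r ≠ 0 := Subgroup.FiniteIndex.index_ne_zero
      have hq : g.r.natAbs * r ≠ 0 := mul_ne_zero (Int.natAbs_ne_zero.2 hg) hr
      haveI := finiteIndex_ker_pq _ hq
      let M := N ⊓ (pq (g.r.natAbs * r)).ker
      refine ⟨Subgroup.zpowers g ⊔ M, Subgroup.finiteIndex_of_le le_sup_right, le_sup_left, ?_⟩
      intro hm
      have hm2 : g ^ (-c) * h ∈ Subgroup.zpowers g ⊔ M :=
        Subgroup.mul_mem _ (Subgroup.mem_sup_left ⟨-c, rfl⟩) hm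
      obtain ⟨y, ⟨j, rfl⟩, z, ⟨hz1, hz2⟩, hyz⟩ := Subgroup.mem_sup_of_normal_right.1 hm2
      have hz3 := (mem_ker_pq _ z).1 hz2
      have hr0 : (g ^ j * z).r = 0 := by
        have : g ^ j * z = g ^ (-c) * h := hyz
        rw [this, hy0]
      rw [mul_r, zpow_r] at hr0
      have hz4 : z.r = -(j * g.r) := by linarith
      rw [hz4, dvd_neg] at hz3
      push_cast at hz3
      have hrj : (r : ℤ) ∣ j := by
        have h5 : g.r * r ∣ g.r * j := by
          rw [mul_comm g.r j]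
          exact (mul_dvd_mul_right (self_dvd_abs g.r) _).trans hz3
        exact (mul_dvd_mul_iff_left hg).1 h5
      obtain ⟨d, hd⟩ := hrj
      have hgj : g ^ j ∈ N := by
        rw [hd, zpow_mul, zpow_natCast]
        exact N.zpow_mem (Subgroup.pow_index_mem N g) d
      apply h2
      have : g ^ j * z = g ^ (-c) * h := hyz
      rw [← this]
      exact L.normalCore_le (N.mul_mem hgj hz1)
  · by_cases hg : g.r = 0
    · have hh0 : h.r ≠ 0 := by
        intro h0; apply hd; rw [h0]; exact dvd_zero _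
      refine ⟨(pq (h.r.natAbs + 1)).ker, finiteIndex_ker_pq _ (by omega), ?_, ?_⟩
      · rw [Subgroup.zpowers_le, mem_ker_pq, hg]; exact dvd_zero _
      · rw [mem_ker_pq]
        intro hdv
        have := Int.natAbs_le_of_dvd_ne_zero hdv hh0
        omega
    · refine ⟨(pq g.r.natAbs).ker, finiteIndex_ker_pq _ (Int.natAbs_ne_zero.2 hg), ?_, ?_⟩
      · rw [Subgroup.zpowers_le, mem_ker_pq]; exact Int.natAbs_dvd.2 dvd_rfl
      · rw [mem_ker_pq, Int.natAbs_dvd]; exact hd

lemma conj_t (i : Fin 3) :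
    (inl (FreeGroup.of i))⁻¹ * t * inl (FreeGroup.of i) = inl a ^ (i.val) * t := by
  rw [← map_pow]
  generalize hy : a ^ (i.val) = y
  ext
  · simp [t, psi_of, hy]
  · simp [t]

lemma commute_a_t : Commute (inl a) t := by
  show inl a * t = t * inl a
  ext <;> simp [t]

theorem not_vr : ¬ ∃ K : Subgroup GG, K.FiniteIndex ∧ Subgroup.zpowers (inl a) ≤ K ∧
      ∃ r : ↥K →* GG, (∀ k : ↥K, r k ∈ Subgroup.zpowers (inl a)) ∧
        (∀ k : ↥K, (k : GG) ∈ Subgroup.zpowers (inl a) → r k = (k : GG)) := by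
  classical
  rintro ⟨K, hK, -, r, hr1, hr2⟩
  have hinj : ∀ k l : ℤ, inl a ^ k = inl a ^ l → k = l := by
    intro k l h
    have h1 : inl a ^ (k - l) = 1 := by rw [zpow_sub, h, mul_inv_cancel]
    rw [← map_zpow, ← map_one inl] at h1
    have := a_zpow_eq_one (inl_inj h1)
    linarith
  choose e he using hr1
  have he' : ∀ k, inl a ^ e k = r k := he
  have eadd : ∀ x y : K, e (x * y) = e x + e y := by
    intro x y
    apply hinj
    rw [zpow_add, he', he', he', map_mul]
  have eone : e 1 = 0 := by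
    have := eadd 1 1
    rw [mul_one] at this
    linarith
  let N := K.normalCore
  let n := N.index
  have hn : n ≠ 0 := Subgroup.FiniteIndex.index_ne_zero
  have hmem : ∀ x : GG, x ^ n ∈ K := fun x => K.normalCore_le (Subgroup.pow_index_mem N x)
  let Phi : GG → ℤ := fun x => e ⟨x ^ n, hmem x⟩
  have Phi_conj : ∀ (z : GG) (_ : z ∈ K) (x : GG), Phi (z⁻¹ * x * z) = Phi x := by
    intro z hz x
    have h1 : (⟨(z⁻¹ * x * z) ^ n, hmem _⟩ : K) = (⟨z, hz⟩ : K)⁻¹ * ⟨x ^ n, hmem x⟩ * ⟨z, hz⟩ := by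
      apply Subtype.ext
      show (z⁻¹ * x * z) ^ n = z⁻¹ * x ^ n * z
      have := conj_pow (a := z⁻¹) (b := x) (i := n)
      simpa using this
    show e _ = e _
    rw [h1, eadd, eadd]
    have h2 := eadd (⟨z, hz⟩ : K)⁻¹ ⟨z, hz⟩
    rw [inv_mul_cancel, eone] at h2
    linarith
  have Phi_mul : ∀ x y : GG, Commute x y → Phi (x * y) = Phi x + Phi y := by
    intro x y hxy
    show e _ = e _ + e _
    rw [← eadd]
    congr 1
    apply Subtype.ext
    exact hxy.mul_pow n
  let Th : GG → GG ⧸ N → ℤ := fun x c => Phi (c.out⁻¹ * x * c.out)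
  have Th_mk : ∀ x c : GG, Th x (c : GG ⧸ N) = Phi (c⁻¹ * x * c) := by
    intro x c
    obtain ⟨z, hz⟩ := QuotientGroup.mk_out_eq_mul N c
    show Phi _ = _
    rw [hz, ← Phi_conj z (K.normalCore_le z.2) (c⁻¹ * x * c)]
    congr 1
    group
  have Th_mul : ∀ x y : GG, Commute x y → ∀ c, Th (x * y) c = Th x c + Th y c := by
    intro x y hxy c
    show Phi _ = Phi _ + Phi _
    rw [← Phi_mul]
    · congr 1; group
    · have := hxy.eq
      show _ * _ = _ * _
      calc c.out⁻¹ * x * c.out * (c.out⁻¹ * y * c.out) = c.out⁻¹ * (x * y) * c.out := by group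
        _ = c.out⁻¹ * (y * x) * c.out := by rw [this]
        _ = _ := by group
  haveI : Fintype (GG ⧸ N) := Fintype.ofFinite _
  have Q_conj : ∀ x y : GG, ∑ c, (Th (y⁻¹ * x * y) c) ^ 2 = ∑ c, (Th x c) ^ 2 := by
    intro x y
    rw [← Equiv.sum_comp (MulAction.toPerm y) (fun c => (Th x c) ^ 2)]
    apply Finset.sum_congr rfl
    intro c _
    induction c using QuotientGroup.induction_on with
    | H c =>
      have : (MulAction.toPerm y) (c : GG ⧸ N) = ((y * c : GG) : GG ⧸ N) := rfl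
      rw [this, Th_mk, Th_mk]
      congr 2
      group
  have q1 := Q_conj t (inl (FreeGroup.of 1))
  have q2 := Q_conj t (inl (FreeGroup.of 2))
  rw [conj_t] at q1 q2
  have e1 : inl a ^ ((1 : Fin 3).val) * t = inl a * t := by simp
  have e2 : inl a ^ ((2 : Fin 3).val) * t = inl a * (inl a * t) := by
    show inl a ^ 2 * t = _
    rw [pow_two, mul_assoc]
  rw [e1] at q1
  rw [e2] at q2
  have c2 : Commute (inl a) (inl a * t) := (Commute.refl _).mul_right commute_a_t
  simp only [Th_mul _ _ c2, Th_mul _ _ commute_a_t] at q1 q2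
  have hsum : ∑ c, (Th (inl a) c) ^ 2 = 0 := by
    have : ∑ c, 2 * (Th (inl a) c) ^ 2 =
        ∑ c, (Th (inl a) c + (Th (inl a) c + Th t c)) ^ 2 -
          2 * ∑ c, (Th (inl a) c + Th t c) ^ 2 + ∑ c, (Th t c) ^ 2 := by
      rw [Finset.mul_sum, ← Finset.sum_sub_distrib, ← Finset.sum_add_distrib]
      apply Finset.sum_congr rfl
      intro c _
      ring
    rw [← Finset.mul_sum, q1, q2] at this
    linarith
  have h0 := (Finset.sum_eq_zero_iff_of_nonneg (fun c _ => sq_nonneg (Th (inl a) c))).1 hsum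
    ((1 : GG) : GG ⧸ N) (Finset.mem_univ _)
  rw [Th_mk] at h0
  have h1 : Phi (inl a) = 0 := by simpa using h0
  have h2 := hr2 ⟨inl a ^ n, hmem _⟩ ⟨(n : ℤ), by simp⟩
  rw [← he'] at h2
  have h3 : e ⟨inl a ^ n, hmem _⟩ = 0 := h1
  rw [h3] at h2
  have h4 := hinj 0 n (by rw [zpow_natCast]; exact h2)
  exact hn (by exact_mod_cast h4.symm)

end Pool.Agent.H395Z.Gersten
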