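import Pool.Agent.H395Z.GerstenB

set_option autoImplicit false
set_option linter.style.haveILetI false

namespace Pool.Agent.H395Z.Gersten

def A : Subgroup F := Subgroup.zpowers a

def V : Type := F ⧸ A

def mkV (f : F) : V := (QuotientGroup.mk f : F ⧸ A)

lemma mkV_eq {f g : F} : mkV f = mkV g ↔ ∃ k : ℤ, g = f * a ^ k := by
  have h0 : mkV f = mkV g ↔ f⁻¹ * g ∈ A := QuotientGroup.eq (s := A) (a := f) (b := g)
  rw [h0]
  constructor
  · rintro ⟨k, hk⟩
    refine ⟨k, ?_⟩
    have hk' : a ^ k = f⁻¹ * g := hk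
    rw [hk']; group
  · rintro ⟨k, rfl⟩
    refine ⟨k, ?_⟩
    show a ^ k = _
    group

lemma mkV_surj (v : V) : ∃ f, mkV f = v := Quotient.exists_rep v

def act (g : GG) : V → V := Quotient.map' (fun x : F => g.l * psi g.r x) (by
  intro x y h
  rw [QuotientGroup.leftRel_apply] at h ⊢
  obtain ⟨k, hk⟩ := h
  refine ⟨k, ?_⟩
  have hk' : a ^ k = x⁻¹ * y := hk
  show a ^ k = _
  have : (g.l * psi g.r x)⁻¹ * (g.l * psi g.r y) = psi g.r (x⁻¹ * y) := by
    rw [map_mul, map_inv]; group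
  rw [this, ← hk', map_zpow, psi_a])

instance : MulAction GG V where
  smul := act
  one_smul v := by
    obtain ⟨f, rfl⟩ := mkV_surj v
    show mkV (1 * psi 0 f) = mkV f
    simp
  mul_smul g h v := by
    obtain ⟨f, rfl⟩ := mkV_surj v
    show mkV ((g * h).l * psi (g * h).r f) = mkV (g.l * psi g.r (h.l * psi h.r f))
    simp [psi_add, mul_assoc]

lemma smul_mkV (g : GG) (f : F) : g • mkV f = mkV (g.l * psi g.r f) := rfl

lemma exists_descend (e : F → Fin 3 → ℤ) (he : ∀ w, e w 0 = 0) :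
    ∃ s : V → ℤ, ∀ w j, s (mkV (w * FreeGroup.of j)) = s (mkV w) + e w j := by
  obtain ⟨s, -, hs⟩ := exists_cocycle e
  refine ⟨Quotient.lift s ?_, hs⟩
  intro x y h
  have h' : mkV x = mkV y := Quotient.sound h
  obtain ⟨k, rfl⟩ := mkV_eq.1 h'
  exact (cocycle_a hs he x k).symm

def chi : F →* Multiplicative ℤ :=
  FreeGroup.lift (fun i : Fin 3 => if i = 0 then 1 else Multiplicative.ofAdd 1)

lemma chi_a : chi a = 1 := by simp [chi, a]

lemma chi_of {i : Fin 3} (hi : i ≠ 0) : chi (FreeGroup.of i) = Multiplicative.ofAdd 1 := by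
  simp [chi, hi]

lemma chi_psi (n : ℤ) (x : F) : chi (psi n x) = chi x := by
  have : chi.comp (psi n) = chi := by
    apply FreeGroup.ext_hom
    intro i
    simp only [MonoidHom.comp_apply, psi_of, map_mul, map_zpow, chi_a, one_zpow, mul_one]
  exact DFunLike.congr_fun this x

def ht : V → ℤ := Quotient.lift (fun x : F => Multiplicative.toAdd (chi x)) (by
  intro x y h
  have h' : mkV x = mkV y := Quotient.sound h
  obtain ⟨k, rfl⟩ := mkV_eq.1 h'
  simp [chi_a])

lemma ht_mkV (x : F) : ht (mkV x) = Multiplicative.toAdd (chi x) := rfl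

lemma ht_edge (g : F) {i : Fin 3} (hi : i ≠ 0) : ht (mkV (g * FreeGroup.of i)) = ht (mkV g) + 1 := by
  rw [ht_mkV, ht_mkV, map_mul, chi_of hi]; simp

lemma ht_smul (g : GG) (v : V) : ht (g • v) = Multiplicative.toAdd (chi g.l) + ht v := by
  obtain ⟨f, rfl⟩ := mkV_surj v
  rw [smul_mkV, ht_mkV, ht_mkV, map_mul, chi_psi]; simp

def E (u v : V) : Prop := ∃ (g : F) (i : Fin 3), i ≠ 0 ∧ u = mkV g ∧ v = mkV (g * FreeGroup.of i)

lemma E.ht {u v : V} (h : E u v) : ht v = ht u + 1 := by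
  obtain ⟨g, i, hi, rfl, rfl⟩ := h
  exact ht_edge g hi

def T : SimpleGraph V where
  Adj u v := E u v ∨ E v u
  symm := ⟨fun _ _ h => h.symm⟩
  loopless := ⟨fun v h => by
    rcases h with h | h <;> (have := h.ht; omega)⟩

lemma T_adj {u v : V} : T.Adj u v ↔ E u v ∨ E v u := Iff.rfl

lemma E.smul {u v : V} (h : E u v) (g : GG) : E (g • u) (g • v) := by
  obtain ⟨f, i, hi, rfl, rfl⟩ := h
  refine ⟨g.l * psi g.r f, i, hi, rfl, ?_⟩
  rw [smul_mkV, map_mul, psi_of]
  symm
  exact mkV_eq.2 ⟨g.r * (i.val : ℤ), by group⟩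

lemma T_connected : T.Connected := by
  have key : ∀ w g : F, T.Reachable (mkV g) (mkV (g * w)) := by
    intro w
    induction w using FreeGroup.induction_on with
    | C1 => intro g; simp
    | of x =>
      intro g
      by_cases hx : x = 0
      · subst hx
        have : mkV g = mkV (g * FreeGroup.of 0) := mkV_eq.2 ⟨1, by simp [a]⟩
        rw [← this]
      · exact SimpleGraph.Adj.reachable (Or.inl ⟨g, x, hx, rfl, rfl⟩)
    | inv_of x ih =>
      intro g
      have := ih (g * (FreeGroup.of x)⁻¹)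
      simp only [inv_mul_cancel_right] at this
      exact this.symm
    | mul x y ihx ihy =>
      intro g
      rw [← mul_assoc]
      exact (ihx g).trans (ihy _)
  haveI : Nonempty V := ⟨mkV 1⟩
  refine ⟨fun u v => ?_⟩
  obtain ⟨f, rfl⟩ := mkV_surj u
  obtain ⟨g, rfl⟩ := mkV_surj v
  have := key (f⁻¹ * g) f
  simpa using this

lemma E.bridge {u v : V} (h : E u v) : T.IsBridge s(u, v) := by
  classical
  obtain ⟨g, i, hi, rfl, rfl⟩ := h
  rw [SimpleGraph.isBridge_iff]
  obtain ⟨s, hs⟩ := exists_descend (fun w j => if j = i ∧ w = g then 1 else 0)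
    (by intro w; simp [hi.symm])
  have h1 : s (mkV (g * FreeGroup.of i)) = s (mkV g) + 1 := by rw [hs]; simp
  have h2 : ∀ x y : V, E x y → s(x, y) ≠ s(mkV g, mkV (g * FreeGroup.of i)) → s x = s y := by
    rintro x y ⟨w, j, hj, rfl, rfl⟩ hne
    rw [hs, if_neg, add_zero]
    rintro ⟨rfl, rfl⟩
    exact hne rfl
  have h3 : ∀ x y : V, (T.deleteEdges {s(mkV g, mkV (g * FreeGroup.of i))}).Reachable x y →
      s x = s y := by
    intro x y ⟨p⟩
    induction p with
    | nil => rfl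
    | cons hadj _ ih =>
      rw [← ih]
      rw [SimpleGraph.deleteEdges_adj] at hadj
      obtain ⟨h4, h5⟩ := hadj
      rw [Set.mem_singleton_iff] at h5
      rcases h4 with h4 | h4
      · exact h2 _ _ h4 h5
      · exact (h2 _ _ h4 (by rwa [Sym2.eq_swap])).symm
  intro hr
  have := h3 _ _ hr
  omega

lemma T_isTree : T.IsTree := by
  refine ⟨T_connected, ?_⟩
  rw [SimpleGraph.isAcyclic_iff_forall_adj_isBridge]
  intro v w h
  rcases h with h | h
  · exact h.bridge
  · rw [Sym2.eq_swap]; exact h.bridge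

lemma smul_one (f : F) : inl f • mkV 1 = mkV f := by
  rw [smul_mkV]; simp

lemma mem_stab_one (g : GG) : g ∈ MulAction.stabilizer GG (mkV 1) ↔ ∃ k : ℤ, g.l = a ^ k := by
  rw [MulAction.mem_stabilizer_iff, smul_mkV, eq_comm, mkV_eq]
  simp

def kap : Multiplicative (Fin 2 → ℤ) →* GG where
  toFun x := ⟨a ^ (Multiplicative.toAdd x 0), Multiplicative.toAdd x 1⟩
  map_one' := by ext <;> simp
  map_mul' x y := by ext <;> simp [zpow_add]

lemma kap_inj : Function.Injective kap := by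
  rw [injective_iff_map_eq_one]
  intro x hx
  have h1 : a ^ (Multiplicative.toAdd x 0) = 1 := congrArg GG.l hx
  have h2 : Multiplicative.toAdd x 1 = 0 := congrArg GG.r hx
  have h3 := a_zpow_eq_one h1
  apply Multiplicative.toAdd.injective
  funext i
  fin_cases i
  · simpa using h3
  · simpa using h2

lemma kap_range : kap.range = MulAction.stabilizer GG (mkV 1) := by
  ext g
  rw [mem_stab_one]
  constructor
  · rintro ⟨x, rfl⟩
    exact ⟨_, rfl⟩
  · rintro ⟨k, hk⟩
    refine ⟨Multiplicative.ofAdd ![k, g.r], ?_⟩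
    ext
    · exact hk.symm
    · rfl

lemma stab_iso (v : V) :
    Nonempty (↥(MulAction.stabilizer GG v) ≃* Multiplicative (Fin 2 → ℤ)) := by
  obtain ⟨f, rfl⟩ := mkV_surj v
  exact ⟨(MulAction.stabilizerEquivStabilizer (smul_one f).symm).symm.trans
    ((MulEquiv.subgroupCongr kap_range).symm.trans (MonoidHom.ofInjective kap_inj).symm)⟩

lemma edge_stab_base {i : Fin 3} (hi : i ≠ 0) (g : GG) (h1 : g • mkV 1 = mkV 1)
    (h2 : g • mkV (FreeGroup.of i) = mkV (FreeGroup.of i)) : g ∈ Subgroup.zpowers t := by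
  classical
  obtain ⟨k, hk⟩ := (mem_stab_one g).1 h1
  obtain ⟨s, hs⟩ := exists_descend (fun w j => if j = i ∧ w = 1 then 1 else 0)
    (by intro w; simp [hi.symm])
  have h3 : g • mkV (FreeGroup.of i) = mkV (g.l * FreeGroup.of i) := by
    rw [smul_mkV, psi_of]
    symm
    exact mkV_eq.2 ⟨g.r * (i.val : ℤ), by group⟩
  have h4 : mkV g.l = mkV 1 := by
    symm; exact mkV_eq.2 ⟨k, by simpa using hk⟩
  have h5 := hs g.l i
  have h6 := hs 1 i
  rw [← h3, h2, h4] at h5
  rw [one_mul] at h6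
  have h7 : g.l = 1 := by
    by_contra hne
    simp [hne] at h5 h6
    omega
  refine ⟨g.r, ?_⟩
  show t ^ g.r = g
  rw [t_zpow]
  ext
  · exact h7.symm
  · rfl

lemma E.stab_cyclic {u v : V} (h : E u v) :
    ∃ x : GG, MulAction.stabilizer GG u ⊓ MulAction.stabilizer GG v ≤ Subgroup.zpowers x := by
  obtain ⟨f, i, hi, rfl, rfl⟩ := h
  refine ⟨inl f * t * (inl f)⁻¹, ?_⟩
  rintro g ⟨h1, h2⟩
  have e1 : mkV f = inl f • mkV 1 := (smul_one f).symm
  have e2 : mkV (f * FreeGroup.of i) = inl f • mkV (FreeGroup.of i) := by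
    rw [smul_mkV]; simp
  have h1' : g • mkV f = mkV f := h1
  have h2' : g • mkV (f * FreeGroup.of i) = mkV (f * FreeGroup.of i) := h2
  obtain ⟨k, hk⟩ := edge_stab_base hi ((inl f)⁻¹ * g * inl f)
    (by rw [mul_smul, mul_smul, ← e1, h1', e1, inv_smul_smul])
    (by rw [mul_smul, mul_smul, ← e2, h2', e2, inv_smul_smul])
  refine ⟨k, ?_⟩
  have hk' : t ^ k = (inl f)⁻¹ * g * inl f := hk
  show (inl f * t * (inl f)⁻¹) ^ k = g
  rw [conj_zpow, hk']
  group

lemma edge_cyclic (u v : V) (h : T.Adj u v) :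
    IsCyclic ↥(MulAction.stabilizer GG u ⊓ MulAction.stabilizer GG v) := by
  rcases h with h | h
  · obtain ⟨x, hx⟩ := h.stab_cyclic
    exact Subgroup.isCyclic_of_le hx
  · obtain ⟨x, hx⟩ := h.stab_cyclic
    rw [inf_comm] at hx
    exact Subgroup.isCyclic_of_le hx

lemma adj_smul (g : GG) (u v : V) (h : T.Adj u v) : T.Adj (g • u) (g • v) := by
  rcases h with h | h
  · exact Or.inl (h.smul g)
  · exact Or.inr (h.smul g)

lemma no_inversion (g : GG) (u v : V) (h : T.Adj u v) : ¬ (g • u = v ∧ g • v = u) := by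
  rintro ⟨h1, h2⟩
  have e1 := ht_smul g u
  have e2 := ht_smul g v
  rw [h1] at e1
  rw [h2] at e2
  rcases h with h | h <;> (have := h.ht; omega)

lemma vertex_orbits : ∃ S : Finset V, ∀ v : V, ∃ g : GG, g • v ∈ S := by
  refine ⟨{mkV 1}, fun v => ?_⟩
  obtain ⟨f, rfl⟩ := mkV_surj v
  refine ⟨(inl f)⁻¹, ?_⟩
  rw [← smul_one f, inv_smul_smul]
  simp

lemma edge_orbits : ∃ S : Finset (V × V), ∀ u v : V, T.Adj u v → ∃ g : GG, (g • u, g • v) ∈ S := by
  classical
  refine ⟨(Finset.univ.image (fun i : Fin 3 => (mkV 1, mkV (FreeGroup.of i)))) ∪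
    (Finset.univ.image (fun i : Fin 3 => (mkV (FreeGroup.of i), mkV 1))), ?_⟩
  have key : ∀ (f : F) (i : Fin 3), (inl f)⁻¹ • mkV f = mkV 1 ∧
      (inl f)⁻¹ • mkV (f * FreeGroup.of i) = mkV (FreeGroup.of i) := by
    intro f i
    constructor
    · rw [← smul_one f, inv_smul_smul]
    · have e2 : mkV (f * FreeGroup.of i) = inl f • mkV (FreeGroup.of i) := by
        rw [smul_mkV]; simp
      rw [e2, inv_smul_smul]
  rintro u v (⟨f, i, -, rfl, rfl⟩ | ⟨f, i, -, rfl, rfl⟩)
  · refine ⟨(inl f)⁻¹, ?_⟩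
    rw [(key f i).1, (key f i).2]
    exact Finset.mem_union_left _ (Finset.mem_image.2 ⟨i, Finset.mem_univ _, rfl⟩)
  · refine ⟨(inl f)⁻¹, ?_⟩
    rw [(key f i).1, (key f i).2]
    exact Finset.mem_union_right _ (Finset.mem_image.2 ⟨i, Finset.mem_univ _, rfl⟩)

end Pool.Agent.H395Z.Gersten
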