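import Pool.Agent.H395Z.ZsLin

set_option autoImplicit false

namespace Pool.Agent.H395Z.Zs

open Finset

theorem stab_closure {Γ : Type} [AddCommGroup Γ] [Fintype Γ] (T R : Set Γ)
    (h : ∀ a ∈ T, ∀ x ∈ R, x + a ∈ R) : ∀ a ∈ AddSubgroup.closure T, ∀ x ∈ R, x + a ∈ R := by
  intro a ha
  induction ha using AddSubgroup.closure_induction with
  | mem a ha => exact h a ha
  | zero => intro x hx; simpa using hx
  | add a b _ _ iha ihb => intro x hx; rw [← add_assoc]; exact ihb _ (iha x hx)
  | neg a _ iha =>
    have hn : ∀ n : ℕ, ∀ x ∈ R, x + n • a ∈ R := by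
      intro n
      induction n with
      | zero => intro x hx; simpa using hx
      | succ n ih => intro x hx; rw [succ_nsmul, ← add_assoc]; exact iha _ (ih x hx)
    intro x hx
    have hc : (Fintype.card Γ - 1) • a = -a := by
      have h1 : Fintype.card Γ • a = 0 := card_nsmul_eq_zero
      have h2 : Fintype.card Γ = (Fintype.card Γ - 1) + 1 := by
        have := Fintype.card_pos (α := Γ); omega
      rw [h2, succ_nsmul] at h1
      exact eq_neg_of_add_eq_zero_left h1
    rw [← hc]; exact hn _ x hx

theorem additive_lemma {Γ I St : Type} [AddCommGroup Γ] [Fintype Γ] [Fintype I]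
    (val : I → St → Γ) (s0 : St) (h0 : ∀ i, val i s0 = 0) (S : Set Γ)
    (hS : ∀ s ∈ S, ∃ J : Finset I, Fintype.card Γ ≤ J.card ∧
      ∀ i ∈ J, s ∈ AddSubgroup.closure (Set.range (val i))) :
    ∀ h ∈ AddSubgroup.closure S, ∃ st : I → St, ∑ i, val i (st i) = h := by
  classical
  let R : Finset I → Finset Γ := fun J => univ.filter fun x => ∃ st : I → St, ∑ i ∈ J, val i (st i) = x
  have hR : ∀ J x, x ∈ R J ↔ ∃ st : I → St, ∑ i ∈ J, val i (st i) = x := by
    intro J x; simp [R]
  have hins : ∀ (J : Finset I) (i : I), i ∉ J → ∀ x, x ∈ R (insert i J) ↔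
      ∃ y ∈ R J, ∃ t, x = y + val i t := by
    intro J i hi x
    rw [hR]
    constructor
    · rintro ⟨st, rfl⟩
      exact ⟨_, (hR _ _).2 ⟨st, rfl⟩, st i, by rw [sum_insert hi, add_comm]⟩
    · rintro ⟨y, hy, t, rfl⟩
      obtain ⟨st, rfl⟩ := (hR _ _).1 hy
      refine ⟨Function.update st i t, ?_⟩
      rw [sum_insert hi, Function.update_self, add_comm]
      congr 1
      refine sum_congr rfl fun j hj => ?_
      rw [Function.update_of_ne (fun e : j = i => hi (e ▸ hj))]
  have key : ∀ (s : Γ) (J : Finset I), (∀ x ∈ R J, x + s ∈ R J) ∨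
      1 + (J.filter fun i => s ∈ AddSubgroup.closure (Set.range (val i))).card ≤ (R J).card := by
    intro s J
    induction J using Finset.induction_on with
    | empty =>
      right
      have : (0 : Γ) ∈ R ∅ := (hR _ _).2 ⟨fun _ => s0, by simp⟩
      simpa using ⟨0, this⟩
    | insert i J hi ih =>
      have hsub : R J ⊆ R (insert i J) := fun x hx =>
        (hins J i hi x).2 ⟨x, hx, s0, by rw [h0, add_zero]⟩
      have hstab : (∀ x ∈ R J, x + s ∈ R J) → ∀ x ∈ R (insert i J), x + s ∈ R (insert i J) := by
        intro hst x hx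
        obtain ⟨y, hy, t, rfl⟩ := (hins J i hi x).1 hx
        exact (hins J i hi _).2 ⟨y + s, hst y hy, t, by abel⟩
      rcases ih with ih | ih
      · exact Or.inl (hstab ih)
      · by_cases hs : s ∈ AddSubgroup.closure (Set.range (val i))
        · by_cases heq : R (insert i J) = R J
          · left
            refine hstab ?_
            refine stab_closure (Set.range (val i)) (R J) ?_ s hs
            rintro a ⟨t, rfl⟩ x hx
            have : x + val i t ∈ R (insert i J) := (hins J i hi _).2 ⟨x, hx, t, rfl⟩
            rwa [heq] at this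
          · right
            have hlt : (R J).card < (R (insert i J)).card :=
              card_lt_card (ssubset_of_subset_of_ne hsub (Ne.symm heq))
            rw [filter_insert, if_pos hs, card_insert_of_notMem (by simp [hi])]
            omega
        · right
          rw [filter_insert, if_neg hs]
          exact ih.trans (card_le_card hsub)
  have hst : ∀ s ∈ S, ∀ x ∈ (R univ : Set Γ), x + s ∈ (R univ : Set Γ) := by
    intro s hs
    obtain ⟨J, hJ, hJs⟩ := hS s hs
    rcases key s univ with h | h
    · exact h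
    · exfalso
      have h1 : J ⊆ univ.filter fun i => s ∈ AddSubgroup.closure (Set.range (val i)) :=
        fun i hi => mem_filter.2 ⟨mem_univ _, hJs i hi⟩
      have h2 := card_le_card h1
      have h3 := card_le_univ (R univ)
      omega
  intro h hh
  have h00 : (0 : Γ) ∈ (R univ : Set Γ) := (hR _ _).2 ⟨fun _ => s0, by simp [h0]⟩
  have := stab_closure S (R univ) hst h hh 0 h00
  rw [zero_add] at this
  exact (hR _ _).1 this

/-- gap lemma: after deleting boundedly many points, every colour that still occurs is robust -/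
theorem gap_lemma (C : Type) [DecidableEq C] (M : ℕ → ℕ) (hM : Monotone M) (j : ℕ) :
    ∀ d : ℕ, ∃ b : ℕ, ∀ (X O : Type) [DecidableEq X] (supp : O → Finset X) (col : O → C)
      (S : Finset C) (D : Finset X), S.card = j → D.card ≤ d →
      (∀ o, Disjoint (supp o) D → col o ∈ S) →
      ∃ (S' : Finset C) (D' : Finset X), D'.card ≤ b ∧ (∀ o, Disjoint (supp o) D' → col o ∈ S') ∧
        ∀ s ∈ S', ∀ B : Finset X, B.card ≤ M D'.card → ∃ o, col o = s ∧ Disjoint (supp o) B := by
  induction j with
  | zero =>
    intro d
    refine ⟨d, fun X O _ supp col S D hS hD h => ⟨S, D, hD, h, fun s hs => ?_⟩⟩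
    rw [card_eq_zero] at hS
    simp [hS] at hs
  | succ j ih =>
    intro d
    obtain ⟨b, hb⟩ := ih (d + M d)
    refine ⟨max b d, fun X O _ supp col S D hS hD h => ?_⟩
    by_cases hgood : ∀ s ∈ S, ∀ B : Finset X, B.card ≤ M D.card →
        ∃ o, col o = s ∧ Disjoint (supp o) B
    · exact ⟨S, D, hD.trans (le_max_right _ _), h, hgood⟩
    · push Not at hgood
      obtain ⟨s, hs, B, hB, hhit⟩ := hgood
      obtain ⟨S', D', h1, h2, h3⟩ := hb X O supp col (S.erase s) (D ∪ B)
        (by rw [card_erase_of_mem hs]; omega)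
        ((card_union_le _ _).trans (add_le_add hD (hB.trans (hM hD))))
        (by
          intro o ho
          rw [disjoint_union_right] at ho
          exact mem_erase.2 ⟨fun e => hhit o e ho.2, h o ho.1⟩)
      exact ⟨S', D', h1.trans (le_max_left _ _), h2, h3⟩

/-- greedy choice of disjoint objects -/
theorem greedy {X O I : Type} [DecidableEq X] [DecidableEq I] [Nonempty O] (supp : O → Finset X)
    (w : ℕ) (hw : ∀ o, (supp o).card ≤ w) (good : I → O → Prop) (E : Finset X) (N : ℕ)
    (hgood : ∀ i, ∀ B : Finset X, B.card ≤ E.card + w * N → ∃ o, good i o ∧ Disjoint (supp o) B)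
    (J : Finset I) (hJ : J.card ≤ N) :
    ∃ q : I → O, (∀ i ∈ J, good i (q i) ∧ Disjoint (supp (q i)) E) ∧
      ∀ i ∈ J, ∀ j ∈ J, i ≠ j → Disjoint (supp (q i)) (supp (q j)) := by
  induction J using Finset.induction_on with
  | empty => exact ⟨fun _ => Classical.arbitrary O, by simp, by simp⟩
  | insert a J ha ih =>
    rw [card_insert_of_notMem ha] at hJ
    obtain ⟨q, hq1, hq2⟩ := ih (by omega)
    obtain ⟨o, ho1, ho2⟩ := hgood a (E ∪ J.biUnion fun i => supp (q i)) (by
      refine (card_union_le _ _).trans (Nat.add_le_add_left ?_ _)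
      refine card_biUnion_le.trans ?_
      refine (sum_le_card_nsmul _ _ w fun i _ => hw _).trans ?_
      rw [smul_eq_mul, mul_comm]
      exact Nat.mul_le_mul_left _ (by omega))
    rw [disjoint_union_right, disjoint_biUnion_right] at ho2
    have hup : ∀ i ∈ J, Function.update q a o i = q i := fun i hi =>
      Function.update_of_ne (fun e : i = a => ha (e ▸ hi)) _ _
    refine ⟨Function.update q a o, ?_, ?_⟩
    · intro i hi
      rcases mem_insert.1 hi with rfl | hi
      · rw [Function.update_self]; exact ⟨ho1, ho2.1⟩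
      · rw [hup i hi]; exact hq1 i hi
    · intro i hi j hj hij
      rcases mem_insert.1 hi with hi' | hi' <;> rcases mem_insert.1 hj with hj' | hj'
      · exact absurd (hi'.trans hj'.symm) hij
      · rw [hi', Function.update_self, hup j hj']; exact ho2.2 j hj'
      · rw [hj', Function.update_self, hup i hi']; exact (ho2.2 i hi').symm
      · rw [hup i hi', hup j hj']; exact hq2 i hi' j hj' hij

end Pool.Agent.H395Z.Zs
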