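import Mathlib

set_option autoImplicit false

namespace Pool.Agent.H395Z.Zs

open Finset

/-- pigeonhole: a large set has a `m`-subset on which `c` is constant -/
theorem pigeon {X C : Type} [DecidableEq X] [Fintype C] [Nonempty C] (c : X → C) (Y : Finset X)
    (m : ℕ) (h : Fintype.card C * m ≤ Y.card) :
    ∃ Z ⊆ Y, Z.card = m ∧ ∃ a, ∀ x ∈ Z, c x = a := by
  classical
  obtain ⟨a, -, ha⟩ := Finset.exists_le_card_fiber_of_mul_le_card_of_maps_to
    (s := Y) (t := (univ : Finset C)) (f := c) (n := m) (fun _ _ => mem_univ _) univ_nonempty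
    (by simpa using h)
  obtain ⟨Z, hZ, hc⟩ := Finset.exists_subset_card_eq ha
  refine ⟨Z, fun x hx => (mem_filter.1 (hZ hx)).1, hc, a, fun x hx => (mem_filter.1 (hZ hx)).2⟩

theorem endHom (C : Type) [Fintype C] [Nonempty C] (l : ℕ) :
    ∃ R : ℕ, ∀ (X : Type) [LinearOrder X] (col : X → X → C) (Y : Finset X), R ≤ Y.card →
      ∃ Z ⊆ Y, Z.card = l ∧ ∃ e : X → C, ∀ x ∈ Z, ∀ y ∈ Z, x < y → col x y = e x := by
  induction l with
  | zero =>
    refine ⟨0, fun X _ col Y _ => ⟨∅, empty_subset _, rfl, fun _ => Classical.arbitrary C, ?_⟩⟩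
    simp
  | succ l ih =>
    obtain ⟨R, hR⟩ := ih
    refine ⟨Fintype.card C * R + 1, fun X _ col Y hY => ?_⟩
    have hne : Y.Nonempty := card_pos.1 (by omega)
    set x0 := Y.min' hne with hx0
    have hx0Y : x0 ∈ Y := min'_mem _ _
    obtain ⟨Y', hY', hc, a, ha⟩ := pigeon (col x0) (Y.erase x0) R
      (by rw [card_erase_of_mem hx0Y]; omega)
    obtain ⟨Z, hZ, hZc, e, he⟩ := hR X col Y' hc.ge
    have hx0Z : x0 ∉ Z := fun h => by simpa using hY' (hZ h)
    refine ⟨insert x0 Z, ?_, by rw [card_insert_of_notMem hx0Z, hZc],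
      Function.update e x0 a, ?_⟩
    · intro x hx
      rcases mem_insert.1 hx with rfl | hx
      · exact hx0Y
      · exact mem_of_mem_erase (hY' (hZ hx))
    · intro x hx y hy hxy
      rcases mem_insert.1 hx with hx | hx
      · rcases mem_insert.1 hy with hy | hy
        · rw [hx, hy] at hxy; exact absurd hxy (lt_irrefl _)
        · rw [hx, Function.update_self]; exact ha y (hZ hy)
      · have hxne : x ≠ x0 := fun h => hx0Z (h ▸ hx)
        rcases mem_insert.1 hy with hy | hy
        · exfalso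
          have : x0 ≤ x := min'_le _ _ (mem_of_mem_erase (hY' (hZ hx)))
          rw [hy] at hxy
          exact absurd hxy (not_lt.2 this)
        · rw [Function.update_of_ne hxne]; exact he x hx y hy hxy

/-- Ramsey's theorem for pairs, with an extra vertex colouring -/
theorem ramsey (C1 C2 : Type) [Fintype C1] [Nonempty C1] [Fintype C2] [Nonempty C2] (m : ℕ) :
    ∃ R : ℕ, ∀ (X : Type) [LinearOrder X] (vc : X → C1) (col : X → X → C2) (Y : Finset X),
      R ≤ Y.card → ∃ Z ⊆ Y, Z.card = m ∧ ∃ a b, (∀ x ∈ Z, vc x = a) ∧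
        ∀ x ∈ Z, ∀ y ∈ Z, x < y → col x y = b := by
  obtain ⟨R, hR⟩ := endHom C2 (Fintype.card (C1 × C2) * m)
  refine ⟨R, fun X _ vc col Y hY => ?_⟩
  obtain ⟨Z, hZ, hZc, e, he⟩ := hR X col Y hY
  obtain ⟨W, hW, hWc, a, ha⟩ := pigeon (fun x => (vc x, e x)) Z m hZc.ge
  refine ⟨W, hW.trans hZ, hWc, a.1, a.2, fun x hx => by rw [← ha x hx], fun x hx y hy hxy => ?_⟩
  rw [he x (hW hx) y (hW hy) hxy, ← ha x hx]

theorem exists_inj {V X : Type} [Nonempty X] (T : Finset V) (Y : Finset X)
    (h : T.card ≤ Y.card) : ∃ ψ : V → X, Set.InjOn ψ T ∧ ∀ v ∈ T, ψ v ∈ Y := by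
  classical
  have : Fintype.card T ≤ Fintype.card Y := by simpa using h
  obtain ⟨e⟩ := Function.Embedding.nonempty_of_card_le this
  refine ⟨fun v => if hv : v ∈ T then (e ⟨v, hv⟩ : X) else Classical.arbitrary X, ?_, ?_⟩
  · intro u hu v hv huv
    have hu' : u ∈ T := hu
    have hv' : v ∈ T := hv
    simp only [hu', hv', dif_pos] at huv
    have := e.injective (Subtype.ext huv)
    exact congrArg Subtype.val this
  · intro v hv
    simp only [hv, dif_pos]
    exact (e ⟨v, hv⟩).2

section PS

variable {V : Type} [LinearOrder V] {Γ : Type} [CommRing Γ]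

/-- sum of `h` over the unordered pairs of distinct elements of `S` -/
def PS (S : Finset V) (h : V → V → Γ) : Γ :=
  ∑ u ∈ S, ∑ v ∈ S, if u < v then h u v else 0

theorem PS_empty (h : V → V → Γ) : PS ∅ h = 0 := by simp [PS]

theorem PS_congr {S : Finset V} {h h' : V → V → Γ}
    (H : ∀ u ∈ S, ∀ v ∈ S, u ≠ v → h u v = h' u v) : PS S h = PS S h' := by
  unfold PS
  refine sum_congr rfl fun u hu => sum_congr rfl fun v hv => ?_
  split_ifs with huv
  · exact H u hu v hv huv.ne
  · rfl

theorem PS_insert {S : Finset V} {a : V} (ha : a ∉ S) {h : V → V → Γ}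
    (hs : ∀ u v, h u v = h v u) : PS (insert a S) h = PS S h + ∑ s ∈ S, h a s := by
  unfold PS
  rw [sum_insert ha, sum_insert ha]
  simp only [sum_insert ha, lt_irrefl, if_false, zero_add, sum_add_distrib]
  have : ∑ s ∈ S, h a s = ∑ v ∈ S, (if a < v then h a v else 0) +
      ∑ u ∈ S, (if u < a then h u a else 0) := by
    rw [← sum_add_distrib]
    refine sum_congr rfl fun v hv => ?_
    have hne : a ≠ v := fun e => ha (e ▸ hv)
    rcases lt_or_gt_of_ne hne with h1 | h1
    · simp [h1, not_lt.2 h1.le]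
    · simp [h1, not_lt.2 h1.le, hs v a]
  rw [this]; ring

theorem PS_union {S T : Finset V} (hd : Disjoint S T) {h : V → V → Γ}
    (hs : ∀ u v, h u v = h v u) :
    PS (S ∪ T) h = PS S h + PS T h + ∑ t ∈ T, ∑ s ∈ S, h t s := by
  induction T using Finset.induction_on with
  | empty => simp [PS_empty]
  | insert a T ha ih =>
    have haS : a ∉ S := fun h' => (disjoint_left.1 hd h') (mem_insert_self _ _)
    have hd' : Disjoint S T := hd.mono_right (subset_insert _ _)
    have : a ∉ S ∪ T := by simp [haS, ha]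
    rw [union_insert, PS_insert this hs, ih hd', PS_insert ha hs, sum_insert ha,
      sum_union hd']
    ring

theorem PS_const (T : Finset V) (b : Γ) :
    PS T (fun _ _ => b) = (T.card.choose 2 : Γ) * b := by
  induction T using Finset.induction_on with
  | empty => simp [PS_empty]
  | insert a T ha ih =>
    rw [PS_insert ha (fun _ _ => rfl), ih, card_insert_of_notMem ha, Nat.choose_succ_succ']
    simp; ring

theorem PS_map {W : Type} [LinearOrder W] (π : V ↪ W) (S : Finset V) {h : W → W → Γ}
    (hs : ∀ u v, h u v = h v u) :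
    PS (S.map π) h = PS S (fun u v => h (π u) (π v)) := by
  induction S using Finset.induction_on with
  | empty => simp [PS_empty]
  | insert a S ha ih =>
    have : π a ∉ S.map π := by simpa using ha
    rw [map_insert, PS_insert this hs, PS_insert ha (fun u v => hs _ _), ih, sum_map]

theorem PS_perm [Fintype V] (π : Equiv.Perm V) {h : V → V → Γ}
    (hs : ∀ u v, h u v = h v u) :
    PS univ h = PS univ (fun u v => h (π u) (π v)) := by
  have := PS_map π.toEmbedding univ hs
  rw [Finset.map_univ_equiv] at this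
  exact this

theorem PS_add (S : Finset V) (h h' : V → V → Γ) :
    PS S (fun u v => h u v + h' u v) = PS S h + PS S h' := by
  unfold PS
  rw [← sum_add_distrib]
  refine sum_congr rfl fun u _ => ?_
  rw [← sum_add_distrib]
  refine sum_congr rfl fun v _ => ?_
  split_ifs <;> simp

theorem PS_sub (S : Finset V) (h h' : V → V → Γ) :
    PS S (fun u v => h u v - h' u v) = PS S h - PS S h' := by
  unfold PS
  rw [← sum_sub_distrib]
  refine sum_congr rfl fun u _ => ?_
  rw [← sum_sub_distrib]
  refine sum_congr rfl fun v _ => ?_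
  split_ifs <;> simp

theorem PS_mul (S : Finset V) (h : V → V → Γ) (b : Γ) :
    PS S (fun u v => h u v * b) = PS S h * b := by
  unfold PS
  rw [sum_mul]
  refine sum_congr rfl fun u _ => ?_
  rw [sum_mul]
  refine sum_congr rfl fun v _ => ?_
  split_ifs <;> simp

theorem PS_sum {I : Type} (J : Finset I) (S : Finset V) (h : I → V → V → Γ) :
    PS S (fun u v => ∑ i ∈ J, h i u v) = ∑ i ∈ J, PS S (h i) := by
  classical
  induction J using Finset.induction_on with
  | empty => simp [PS]
  | insert a J ha ih =>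
    simp only [sum_insert ha]
    rw [PS_add, ih]

theorem PS_mem (H : AddSubgroup Γ) (S : Finset V) (h : V → V → Γ)
    (hh : ∀ u ∈ S, ∀ v ∈ S, u ≠ v → h u v ∈ H) : PS S h ∈ H := by
  unfold PS
  refine H.sum_mem fun u hu => H.sum_mem fun v hv => ?_
  split_ifs with huv
  · exact hh u hu v hv huv.ne
  · exact H.zero_mem

theorem PS_support {S T : Finset V} (hT : T ⊆ S) {h : V → V → Γ}
    (hh : ∀ u ∈ S, ∀ v ∈ S, u ∉ T ∨ v ∉ T → h u v = 0) : PS S h = PS T h := by
  unfold PS
  have h1 : ∀ u ∈ S, (∑ v ∈ S, if u < v then h u v else 0) =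
      ∑ v ∈ T, if u < v then h u v else 0 := by
    intro u hu
    symm
    refine sum_subset hT fun v hv hvT => ?_
    rw [hh u hu v hv (Or.inr hvT)]; simp
  rw [sum_congr rfl h1]
  symm
  refine sum_subset hT fun u hu huT => sum_eq_zero fun v hv => ?_
  rw [hh u hu v (hT hv) (Or.inl huT)]; simp

theorem PS_deg (S : Finset V) (A : V → V → Γ) (hs : ∀ u v, A u v = A v u) (h0 : ∀ u, A u u = 0)
    (g : V → Γ) :
    PS S (fun u v => A u v * (g u + g v)) = ∑ v ∈ S, (∑ u ∈ S, A v u) * g v := by
  induction S using Finset.induction_on with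
  | empty => simp [PS_empty]
  | insert a S ha ih =>
    rw [PS_insert ha (fun u v => by rw [hs u v, add_comm]), ih, sum_insert ha, sum_insert ha, h0]
    simp only [sum_insert ha, add_mul, sum_add_distrib, mul_add, zero_add, sum_mul]
    have : ∑ x ∈ S, A x a * g x = ∑ x ∈ S, A a x * g x :=
      sum_congr rfl fun x _ => by rw [hs x a]
    rw [this]; ring

end PS

theorem edge_sum {n : ℕ} {Γ : Type} [CommRing Γ] (G : SimpleGraph (Fin n)) [DecidableRel G.Adj]
    (p : Sym2 (Fin n) → Γ) :
    ∑ e ∈ G.edgeFinset, p e =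
      PS univ (fun u v => (if G.Adj u v then (1 : Γ) else 0) * p s(u, v)) := by
  classical
  have h1 : ∑ e ∈ G.edgeFinset, p e =
      ∑ e ∈ (univ : Finset (Fin n)).sym2 with ¬ e.IsDiag, (if e ∈ G.edgeSet then p e else 0) := by
    rw [← sum_filter]
    refine sum_congr ?_ fun _ _ => rfl
    ext e
    simp only [SimpleGraph.mem_edgeFinset, mem_filter]
    constructor
    · intro he
      refine ⟨⟨?_, G.not_isDiag_of_mem_edgeSet he⟩, he⟩
      induction e using Sym2.ind
      simp
    · exact fun h => h.2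
  rw [h1, Finset.sum_sym2_filter_not_isDiag, PS, ← sum_product', sum_filter]
  have h2 : (univ : Finset (Fin n)).offDiag ⊆ univ ×ˢ univ := fun x _ => by simp
  rw [← sum_subset h2]
  · refine sum_congr rfl fun x _ => ?_
    split_ifs <;> simp_all
  · intro x _ hx
    have : x.1 = x.2 := by simpa using hx
    simp [this]

end Pool.Agent.H395Z.Zs
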