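import Pool.Agent.H395Z.ZsHost

set_option autoImplicit false

namespace Pool.Agent.H395Z.Zs

open Finset

theorem tree_lemma (l : ℕ) : ∃ K : ℕ, ∀ (V : Type) [DecidableEq V] (r : V → V → Bool)
    (U : Finset V), K + 1 ≤ U.card →
    (∀ a ∈ U, ∀ b ∈ U, a ≠ b → ∃ w, w ≠ a ∧ w ≠ b ∧ r a w ≠ r b w) →
    ∃ u w : ℕ → V, (∀ i < l, u i ∈ U) ∧ (∀ i j, i < j → j < l → r (u j) (w i) ≠ r (u i) (w i)) ∧
      (∀ i j, i ≤ j → j < l → w i ≠ u j) ∧ (∀ i j, i < j → j < l → u i ≠ u j) := by
  induction l with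
  | zero =>
    refine ⟨0, fun V _ r U hU _ => ?_⟩
    obtain ⟨x, -⟩ : U.Nonempty := card_pos.1 (by omega)
    exact ⟨fun _ => x, fun _ => x, by simp, by simp, by simp, by simp⟩
  | succ l ih =>
    obtain ⟨K, hK⟩ := ih
    refine ⟨2 * (K + 1) + 3, fun V _ r U hU hnt => ?_⟩
    obtain ⟨a, ha, b, hb, hab⟩ := one_lt_card.1 (show 1 < U.card by omega)
    obtain ⟨w0, hwa, hwb, hr⟩ := hnt a ha b hb hab
    obtain ⟨U', hU', hU'c, σ, hσ⟩ := pigeon (fun x => r x w0) (U \ {a, b, w0}) (K + 1) (by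
      have h1 := le_card_sdiff ({a, b, w0} : Finset V) U
      have h2 : ({a, b, w0} : Finset V).card ≤ 3 := card_le_three
      simp only [Fintype.card_bool]
      omega)
    have hU'' : ∀ x ∈ U', x ∈ U ∧ x ≠ a ∧ x ≠ b ∧ x ≠ w0 := fun x hx => by
      simpa using hU' hx
    obtain ⟨u, w, h1, h2, h3, h4⟩ := hK V r U' hU'c.ge
      (fun x hx y hy hxy => hnt x (hU'' x hx).1 y (hU'' y hy).1 hxy)
    obtain ⟨u0, hu0U, hu0w, hu0σ, hu0⟩ : ∃ u0 ∈ U, w0 ≠ u0 ∧ r u0 w0 ≠ σ ∧ ∀ x ∈ U', u0 ≠ x := by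
      by_cases h : r a w0 = σ
      · exact ⟨b, hb, hwb, fun e => hr (h.trans e.symm), fun x hx => (hU'' x hx).2.2.1.symm⟩
      · exact ⟨a, ha, hwa, h, fun x hx => (hU'' x hx).2.1.symm⟩
    refine ⟨fun i => Nat.casesOn i u0 u, fun i => Nat.casesOn i w0 w, ?_, ?_, ?_, ?_⟩
    · rintro (_ | i) hi
      · exact hu0U
      · exact (hU'' _ (h1 i (by omega))).1
    · rintro (_ | i) (_ | j) hij hj
      · omega
      · have := hσ _ (h1 j (by omega))
        change r (u j) w0 ≠ r u0 w0
        rw [show r (u j) w0 = σ from this]; exact hu0σ.symm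
      · omega
      · exact h2 i j (by omega) (by omega)
    · rintro (_ | i) (_ | j) hij hj
      · exact hu0w
      · exact (hU'' _ (h1 j (by omega))).2.2.2.symm
      · omega
      · exact h3 i j (by omega) (by omega)
    · rintro (_ | i) (_ | j) hij hj
      · omega
      · exact hu0 _ (h1 j (by omega))
      · omega
      · exact h4 i j (by omega) (by omega)

def gad {V : Type} (U W : ℕ → V) (i : ℕ) : Bool × Bool → V
  | (false, false) => U (3 * i + 1)
  | (false, true) => U (3 * i + 2)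
  | (true, false) => W (3 * i + 1)
  | (true, true) => W (3 * i)

theorem gadget_lemma (k L : ℕ) [NeZero k] : ∃ K : ℕ, ∀ (V : Type) [DecidableEq V]
    (r : V → V → Bool) (_ : ∀ u v, r u v = r v u) (d : V → ZMod k) (U : Finset V), K ≤ U.card →
    (∀ a ∈ U, ∀ b ∈ U, a ≠ b → ∃ w, w ≠ a ∧ w ≠ b ∧ r a w ≠ r b w) →
    ∃ (g : Fin L × Bool × Bool ↪ V) (δ : Bool → ZMod k) (ρ : Bool),
      (∀ i b c, d (g (i, b, c)) = δ b) ∧
      (∀ i j, i ≠ j → ∀ b c c' b' e e',
        r (g (i, b, c)) (g (j, b', e)) = r (g (i, b, c')) (g (j, b', e'))) ∧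
      ∀ i, r (g (i, false, false)) (g (i, true, false)) = ρ ∧
        r (g (i, false, true)) (g (i, true, false)) = !ρ ∧
        r (g (i, false, false)) (g (i, true, true)) = !ρ ∧
        r (g (i, false, true)) (g (i, true, true)) = !ρ := by
  obtain ⟨l, hl⟩ := ramsey (Bool × ZMod k × ZMod k) (Bool × Bool × Bool × Bool) (3 * L)
  obtain ⟨K, hK⟩ := tree_lemma l
  refine ⟨K + 1, fun V _ r hr d U0 hU hnt => ?_⟩
  obtain ⟨u, w, -, h2, h3, h4⟩ := hK V r U0 hU hnt
  obtain ⟨Z, hZ, hZc, ⟨ρ, δu, δw⟩, ⟨α, β, ρ', η⟩, ha, hb⟩ := hl ℕ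
    (fun i => (r (u i) (w i), d (u i), d (w i)))
    (fun i j => (r (u i) (u j), r (w i) (w j), r (u i) (w j), decide (u i = w j))) (range l)
    (by simp)
  let e : ℕ → ℕ := fun i => if h : i < 3 * L then Z.orderEmbOfFin hZc ⟨i, h⟩ else 0
  have heZ : ∀ i < 3 * L, e i ∈ Z := fun i hi => by
    simp only [e, hi, dif_pos]; exact Z.orderEmbOfFin_mem hZc _
  have hel : ∀ i < 3 * L, e i < l := fun i hi => mem_range.1 (hZ (heZ i hi))
  have hem : ∀ i j, i < j → j < 3 * L → e i < e j := fun i j hij hj => by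
    have hi : i < 3 * L := by omega
    simp only [e, hi, hj, dif_pos]
    exact (Z.orderEmbOfFin hZc).strictMono (by simpa using hij)
  set U : ℕ → V := fun i => u (e i) with hUd
  set W : ℕ → V := fun i => w (e i) with hWd
  have a1 : ∀ i < 3 * L, r (U i) (W i) = ρ := fun i hi => congrArg Prod.fst (ha _ (heZ i hi))
  have a2 : ∀ i < 3 * L, d (U i) = δu := fun i hi => congrArg (·.2.1) (ha _ (heZ i hi))
  have a3 : ∀ i < 3 * L, d (W i) = δw := fun i hi => congrArg (·.2.2) (ha _ (heZ i hi))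
  have b0 : ∀ i j, i < j → j < 3 * L →
      (r (U i) (U j), r (W i) (W j), r (U i) (W j), decide (U i = W j)) = (α, β, ρ', η) :=
    fun i j hij hj => hb _ (heZ i (by omega)) _ (heZ j hj) (hem i j hij hj)
  have b1 : ∀ i j, i ≠ j → i < 3 * L → j < 3 * L → r (U i) (U j) = α := fun i j hij hi hj => by
    rcases lt_or_gt_of_ne hij with h | h
    · exact congrArg Prod.fst (b0 i j h hj)
    · rw [hr]; exact congrArg Prod.fst (b0 j i h hi)
  have b2 : ∀ i j, i ≠ j → i < 3 * L → j < 3 * L → r (W i) (W j) = β := fun i j hij hi hj => by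
    rcases lt_or_gt_of_ne hij with h | h
    · exact congrArg (·.2.1) (b0 i j h hj)
    · rw [hr]; exact congrArg (·.2.1) (b0 j i h hi)
  have b3 : ∀ i j, i < j → j < 3 * L → r (U i) (W j) = ρ' := fun i j hij hj =>
    congrArg (·.2.2.1) (b0 i j hij hj)
  have b4 : ∀ i j, i < j → j < 3 * L → decide (U i = W j) = η := fun i j hij hj =>
    congrArg (·.2.2.2) (b0 i j hij hj)
  have b5 : ∀ i j, i < j → j < 3 * L → r (U j) (W i) = !ρ := fun i j hij hj => by
    have h5 := h2 _ _ (hem i j hij hj) (hel j hj)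
    have h6 := a1 i (by omega)
    change r (U j) (W i) ≠ r (U i) (W i) at h5
    rw [h6] at h5
    cases ρ <;> simpa using h5
  have c1 : ∀ i j, i ≠ j → i < 3 * L → j < 3 * L → U i ≠ U j := fun i j hij hi hj => by
    rcases lt_or_gt_of_ne hij with h | h
    · exact h4 _ _ (hem i j h hj) (hel j hj)
    · exact (h4 _ _ (hem j i h hi) (hel i hi)).symm
  have c2 : ∀ i j, i ≠ j → i < 3 * L → j < 3 * L → W i ≠ W j := by
    have : ∀ i j, i < j → j < 3 * L → W i ≠ W j := fun i j hij hj e => by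
      have h5 := b5 i j hij hj
      rw [e, a1 j hj] at h5
      cases ρ <;> simp at h5
    intro i j hij hi hj
    rcases lt_or_gt_of_ne hij with h | h
    · exact this i j h hj
    · exact (this j i h hi).symm
  have c3 : ∀ i j, i < 3 * L → j < 3 * L → U i ≠ W j := fun i j hi hj => by
    rcases lt_or_ge i j with h | h
    · intro hij
      have hη : η = true := by rw [← b4 i j h hj]; simpa using hij
      have e1 := b4 0 2 (by omega) (by omega)
      have e2 := b4 1 2 (by omega) (by omega)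
      rw [hη, decide_eq_true_eq] at e1 e2
      exact c1 0 1 (by omega) (by omega) (by omega) (e1.trans e2.symm)
    · refine (h3 _ _ ?_ (hel i hi)).symm
      rcases h.lt_or_eq with h | h
      · exact (hem j i h hi).le
      · rw [h]
  have hinj : Function.Injective fun z : Fin L × Bool × Bool => gad U W z.1 z.2 := by
    rintro ⟨⟨i, hi⟩, b, c⟩ ⟨⟨j, hj⟩, b', c'⟩ h
    by_contra hne
    cases b <;> cases c <;> cases b' <;> cases c' <;> simp only [gad] at h <;>
      first
      | exact c3 _ _ (by omega) (by omega) h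
      | exact c3 _ _ (by omega) (by omega) h.symm
      | exact c1 _ _ (by simp at hne; omega) (by omega) (by omega) h
      | exact c2 _ _ (by simp at hne; omega) (by omega) (by omega) h
  refine ⟨⟨_, hinj⟩, fun b => if b then δw else δu, ρ, ?_, ?_, ?_⟩
  · rintro ⟨i, hi⟩ b c
    cases b <;> cases c <;> simp only [Function.Embedding.coeFn_mk, gad] <;>
      first
      | exact a2 _ (by omega)
      | exact a3 _ (by omega)
  · rintro ⟨i, hi⟩ ⟨j, hj⟩ hij b c c' b' f f'
    have hij' : i ≠ j := fun e => hij (Fin.ext e)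
    have k1 : ∀ c f, r (gad U W i (false, c)) (gad U W j (false, f)) = α := by
      intro c f
      cases c <;> cases f <;> exact b1 _ _ (by omega) (by omega) (by omega)
    have k2 : ∀ c f, r (gad U W i (true, c)) (gad U W j (true, f)) = β := by
      intro c f
      cases c <;> cases f <;> exact b2 _ _ (by omega) (by omega) (by omega)
    have k3 : ∀ i j, i < L → j < L → i ≠ j → ∀ c f,
        r (gad U W i (false, c)) (gad U W j (true, f)) = if i < j then ρ' else !ρ := by
      intro i j hi hj hij c f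
      split_ifs with h
      · cases c <;> cases f <;> exact b3 _ _ (by omega) (by omega)
      · cases c <;> cases f <;> exact b5 _ _ (by omega) (by omega)
    simp only [Function.Embedding.coeFn_mk]
    cases b <;> cases b'
    · rw [k1, k1]
    · rw [k3 i j hi hj hij', k3 i j hi hj hij']
    · rw [hr, k3 j i hj hi hij'.symm, hr, k3 j i hj hi hij'.symm]
    · rw [k2, k2]
  · rintro ⟨i, hi⟩
    exact ⟨a1 (3 * i + 1) (by omega), b5 (3 * i + 1) (3 * i + 2) (by omega) (by omega),
      b5 (3 * i) (3 * i + 1) (by omega) (by omega), b5 (3 * i) (3 * i + 2) (by omega) (by omega)⟩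

end Pool.Agent.H395Z.Zs
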