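import Pool.Agent.H395Z.ZsAdd

set_option autoImplicit false

namespace Pool.Agent.H395Z.Zs

open Finset

/-- second difference of `χ` on a quadruple -/
def kap {X Γ : Type} [AddCommGroup Γ] (χ : X → X → Γ) (o : Bool × Bool → X) : Γ :=
  χ (o (false, false)) (o (true, false)) - χ (o (false, true)) (o (true, false))
    - χ (o (false, false)) (o (true, true)) + χ (o (false, true)) (o (true, true))

def quad {X : Type} (x x' y z : X) : Bool × Bool → X
  | (false, false) => x
  | (false, true) => x'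
  | (true, false) => y
  | (true, true) => z

theorem quad_inj {X : Type} {x x' y z : X} (h1 : x ≠ x') (h2 : x ≠ y) (h3 : x ≠ z) (h4 : x' ≠ y)
    (h5 : x' ≠ z) (h6 : y ≠ z) : Function.Injective (quad x x' y z) := by
  rintro ⟨a, b⟩ ⟨c, d⟩ h
  cases a <;> cases b <;> cases c <;> cases d <;> simp_all [quad, eq_comm]

theorem host (k : ℕ) [NeZero k] : ∃ c : ℕ, ∀ (X : Type) [DecidableEq X] [Fintype X]
    (χ : X → X → ZMod k) (_ : ∀ x y, χ x y = χ y x), c ≤ Fintype.card X →
    ∃ (S : Finset (ZMod k)) (E : Finset X) (γ : X → ZMod k) (a : ZMod k)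
      (q : (S × Fin k) × Bool × Bool ↪ X) (t : S → Bool × Bool → ZMod k),
      E.card ≤ c ∧
      (∀ x y, x ∉ E → y ∉ E → x ≠ y →
        χ x y - γ x - γ y - a ∈ AddSubgroup.closure (S : Set (ZMod k))) ∧
      (∀ z, q z ∉ E) ∧ (∀ i z, γ (q (i, z)) = t i.1 z) ∧
      ∀ i, kap χ (fun z => q (i, z)) = i.1 := by
  obtain ⟨b, hb⟩ := gap_lemma (ZMod k)
    (fun d => Fintype.card (Bool × Bool → ZMod k) * (d + 1 + 4 * (k * k)))
    (fun d d' h => Nat.mul_le_mul_left _ (by omega)) k 0
  refine ⟨b + 4, fun X _ _ χ hχ hX => ?_⟩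
  obtain ⟨S, D, hD, hS, hrob⟩ := hb X (Bool × Bool ↪ X) (fun o => univ.map o)
    (fun o => kap χ o) univ ∅ (by simp) (by simp) (fun _ _ => mem_univ _)
  obtain ⟨z0, hz0⟩ : ∃ z0, z0 ∉ D := by
    by_contra hcon
    push Not at hcon
    have : (univ : Finset X) ⊆ D := fun x _ => hcon x
    have := card_le_card this
    rw [card_univ] at this
    omega
  have hne : Nonempty (Bool × Bool ↪ X) :=
    Function.Embedding.nonempty_of_card_le (by simp; omega)
  set E := insert z0 D with hE
  have hEc : E.card = D.card + 1 := card_insert_of_notMem hz0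
  set γ : X → ZMod k := fun x => χ x z0 with hγ
  obtain ⟨a, ha⟩ := const_of_step (AddSubgroup.closure (S : Set (ZMod k))) {x | x ∉ E}
    (fun x y => χ x y - γ x - γ y) (fun x y => by rw [hχ]; ring) (by
      intro x hx x' hx' y hy h1 h2
      have hx1 : x ≠ z0 ∧ x ∉ D := by simpa [hE] using hx
      have hx2 : x' ≠ z0 ∧ x' ∉ D := by simpa [hE] using hx'
      have hy1 : y ≠ z0 ∧ y ∉ D := by simpa [hE] using hy
      by_cases hxx : x = x'
      · rw [hxx, sub_self]; exact AddSubgroup.zero_mem _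
      · have := hS ⟨quad x x' y z0, quad_inj hxx h1 hx1.1 h2 hx2.1 hy1.1⟩ (by
          rw [disjoint_left]
          intro w hw
          obtain ⟨⟨c, d⟩, -, rfl⟩ := mem_map.1 hw
          cases c <;> cases d <;> simp [quad, hx1.2, hx2.2, hy1.2, hz0])
        have h3 : kap χ (quad x x' y z0) ∈ AddSubgroup.closure (S : Set (ZMod k)) :=
          AddSubgroup.subset_closure this
        convert h3 using 1
        simp only [kap, quad, hγ]
        ring)
  have ht : ∀ s : S, ∃ t : Bool × Bool → ZMod k, ∀ B : Finset X, B.card ≤ E.card + 4 * (k * k) →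
      ∃ o : Bool × Bool ↪ X, (kap χ o = s ∧ ∀ z, γ (o z) = t z) ∧ Disjoint (univ.map o) B := by
    intro s
    by_contra hcon
    push Not at hcon
    choose B hB1 hB2 using hcon
    obtain ⟨o, ho1, ho2⟩ := hrob s s.2 (univ.biUnion B) (by
      refine card_biUnion_le.trans ?_
      refine (sum_le_card_nsmul _ _ (D.card + 1 + 4 * (k * k)) fun i _ => ?_).trans ?_
      · rw [← hEc]; exact hB1 i
      · rw [smul_eq_mul, card_univ])
    rw [disjoint_biUnion_right] at ho2
    exact hB2 (fun z => γ (o z)) o ⟨ho1, fun _ => rfl⟩ (ho2 _ (mem_univ _))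
  choose t ht using ht
  obtain ⟨q, hq1, hq2⟩ := greedy (I := S × Fin k) (fun o : Bool × Bool ↪ X => univ.map o) 4
    (fun o => by simp) (fun i o => kap χ o = i.1 ∧ ∀ z, γ (o z) = t i.1 z) E (k * k)
    (fun i B hB => ht i.1 B hB) univ (by
      have := card_le_univ S
      rw [ZMod.card] at this
      simp only [card_univ, Fintype.card_prod, Fintype.card_coe, Fintype.card_fin]
      exact Nat.mul_le_mul_right _ this)
  have hinj : Function.Injective fun w : (S × Fin k) × Bool × Bool => q w.1 w.2 := by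
    rintro ⟨i, z⟩ ⟨j, z'⟩ h
    simp only at h
    by_cases hij : i = j
    · subst hij
      rw [(q i).injective h]
    · exfalso
      have := hq2 i (mem_univ _) j (mem_univ _) hij
      rw [disjoint_left] at this
      exact this (mem_map.2 ⟨z, mem_univ _, rfl⟩) (mem_map.2 ⟨z', mem_univ _, h.symm⟩)
  refine ⟨S, E, γ, a, ⟨_, hinj⟩, t, by omega, fun x y hx hy hxy => ha x hx y hy hxy, ?_, ?_, ?_⟩
  · rintro ⟨i, z⟩
    have := (hq1 i (mem_univ _)).2
    rw [disjoint_left] at this
    exact this (mem_map.2 ⟨z, mem_univ _, rfl⟩)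
  · intro i z
    exact (hq1 i (mem_univ _)).1.2 z
  · intro i
    exact (hq1 i (mem_univ _)).1.1

end Pool.Agent.H395Z.Zs
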