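import Pool.Agent.H395Z.ZsBase

set_option autoImplicit false

namespace Pool.Agent.H395Z.Zs

open Finset

theorem const_of_step {X Γ : Type} [AddCommGroup Γ] (H : AddSubgroup Γ) (T : Set X)
    (h : X → X → Γ) (hs : ∀ x y, h x y = h y x)
    (step : ∀ x ∈ T, ∀ x' ∈ T, ∀ y ∈ T, x ≠ y → x' ≠ y → h x y - h x' y ∈ H) :
    ∃ a, ∀ x ∈ T, ∀ y ∈ T, x ≠ y → h x y - a ∈ H := by
  by_cases hp : ∃ x0 ∈ T, ∃ y0 ∈ T, x0 ≠ y0
  · obtain ⟨x0, hx0, y0, hy0, hne⟩ := hp
    refine ⟨h x0 y0, fun x hx y hy hxy => ?_⟩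
    by_cases hyx : y = x0
    · subst hyx
      rw [hs y y0]
      exact step x hx y0 hy0 y hy hxy hne.symm
    · have h1 := step x hx x0 hx0 y hy hxy (Ne.symm hyx)
      have h2 := step y hy y0 hy0 x0 hx0 hyx hne.symm
      have := H.add_mem h1 h2
      rw [hs y x0, hs y0 x0] at this
      simpa using this
  · refine ⟨0, fun x hx y hy hxy => absurd ⟨x, hx, y, hy, hxy⟩ hp⟩

/-- glue two partial injections -/
theorem glue {V X : Type} [DecidableEq V] [DecidableEq X] {S T : Finset V} (φ ψ : V → X)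
    (hφ : Set.InjOn φ S) (hψ : Set.InjOn ψ T) (hd : ∀ t ∈ T, ψ t ∉ S.image φ) :
    Set.InjOn (fun v => if v ∈ T then ψ v else φ v) (S ∪ T : Finset V) := by
  intro u hu v hv huv
  have hu' := mem_union.1 (mem_coe.1 hu)
  have hv' := mem_union.1 (mem_coe.1 hv)
  by_cases h1 : u ∈ T <;> by_cases h2 : v ∈ T <;> simp only [h1, h2, if_true, if_false] at huv
  · exact hψ h1 h2 huv
  · exact absurd (mem_image.2 ⟨v, hv'.resolve_right h2, huv.symm⟩) (hd u h1)
  · exact absurd (mem_image.2 ⟨u, hu'.resolve_right h1, huv⟩) (hd v h2)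
  · exact hφ (hu'.resolve_right h1) (hv'.resolve_right h2) huv

theorem choose_two_mul (k : ℕ) : (((2 * k).choose 2 : ℕ) : ZMod k) = 0 := by
  rw [ZMod.natCast_eq_zero_iff, Nat.choose_two_right]
  refine ⟨2 * k - 1, ?_⟩
  rw [mul_assoc, Nat.mul_div_cancel_left _ (by norm_num)]

theorem case1 (k : ℕ) [NeZero k] (C : Type) [Fintype C] [Nonempty C] :
    ∃ c : ℕ, ∀ (V X : Type) [LinearOrder V] [LinearOrder X] [Fintype X]
      (A : V → V → ZMod k) (_ : ∀ u v, A u v = A v u) (cl : V → C)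
      (_ : ∀ u v w, cl u = cl v → w ≠ u → w ≠ v → A u w = A v w)
      (χ : X → X → ZMod k) (_ : ∀ x y, χ x y = χ y x) (S : Finset V),
      PS S A = 0 → S.card + c ≤ Fintype.card X →
      ∃ φ : V → X, Set.InjOn φ S ∧ PS S (fun u v => A u v * χ (φ u) (φ v)) = 0 := by
  obtain ⟨R, hR⟩ := ramsey (ZMod k) (ZMod k) (Fintype.card C * (2 * k))
  refine ⟨R + 1, fun V X _ _ _ A hA cl tw χ hχ S => ?_⟩
  have hk : 0 < k := Nat.pos_of_ne_zero (NeZero.ne k)
  have hC : 0 < Fintype.card C := Fintype.card_pos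
  induction hn : S.card using Nat.strong_induction_on generalizing S with
  | _ n ih =>
  intro h0 hcard
  have : Nonempty X := Fintype.card_pos_iff.1 (by omega)
  have sym : ∀ {Z : Finset X} {b : ZMod k}, (∀ x ∈ Z, ∀ y ∈ Z, x < y → χ x y = b) →
      ∀ x ∈ Z, ∀ y ∈ Z, x ≠ y → χ x y = b := by
    intro Z b hb x hx y hy hxy
    rcases lt_or_gt_of_ne hxy with h | h
    · exact hb x hx y hy h
    · rw [hχ]; exact hb y hy x hx h
  by_cases hsmall : S.card ≤ Fintype.card C * (2 * k)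
  · obtain ⟨Z, -, hZc, a, b, -, hb⟩ := hR X (fun _ => 0) χ univ (by simp; omega)
    obtain ⟨ψ, hψ, hψZ⟩ := exists_inj S Z (by omega)
    refine ⟨ψ, hψ, ?_⟩
    rw [PS_congr (h' := fun u v => A u v * b), PS_mul, h0, zero_mul]
    intro u hu v hv huv
    rw [sym hb _ (hψZ u hu) _ (hψZ v hv) (fun e => huv (hψ hu hv e))]
  · obtain ⟨T, hTS, hTc, a, ha⟩ := pigeon cl S (2 * k) (by omega)
    set S' := S \ T with hS'
    have hd : Disjoint S' T := sdiff_disjoint
    have hU : S' ∪ T = S := sdiff_union_of_subset hTS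
    have hc' : S'.card + 2 * k = S.card := by rw [← hU, card_union_of_disjoint hd, hTc]
    obtain ⟨t0, ht0⟩ : T.Nonempty := card_pos.1 (by omega)
    obtain ⟨ε, hε⟩ := const_of_step (⊥ : AddSubgroup (ZMod k)) (T : Set V) A hA (by
      intro x hx x' hx' y _ h1 h2
      rw [tw x x' y ((ha x hx).trans (ha x' hx').symm) h1.symm h2.symm]
      simp)
    have hε' : ∀ x ∈ T, ∀ y ∈ T, x ≠ y → A x y = ε := fun x hx y hy hxy => by
      simpa [sub_eq_zero] using hε x hx y hy hxy
    have htw : ∀ t ∈ T, ∀ s ∈ S', A t s = A t0 s := fun t ht s hs =>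
      tw t t0 s ((ha t ht).trans (ha t0 ht0).symm)
        (fun e => (disjoint_left.1 hd hs) (e ▸ ht)) (fun e => (disjoint_left.1 hd hs) (e ▸ ht0))
    have hk0 : ((2 * k : ℕ) : ZMod k) = 0 := by simp
    have h0' : PS S' A = 0 := by
      rw [← hU, PS_union hd hA, PS_congr (S := T) (h' := fun _ _ => ε) hε', PS_const, hTc,
        choose_two_mul, sum_congr rfl (fun t ht => sum_congr rfl (htw t ht)), sum_const, hTc,
        nsmul_eq_mul, hk0] at h0
      simpa using h0
    obtain ⟨φ, hφ, hφ0⟩ := ih S'.card (by omega) S' rfl h0' (by omega)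
    have hY : R ≤ (univ \ S'.image φ).card := by
      rw [card_univ_sdiff]
      have := card_image_le (s := S') (f := φ)
      omega
    obtain ⟨Z, hZY, hZc, lam, b, hlam, hb⟩ :=
      hR X (fun x => ∑ s ∈ S', A t0 s * χ x (φ s)) χ _ hY
    obtain ⟨ψ, hψ, hψZ⟩ := exists_inj T Z (by rw [hTc, hZc]; nlinarith)
    refine ⟨fun v => if v ∈ T then ψ v else φ v, ?_, ?_⟩
    · rw [← hU]
      exact glue φ ψ hφ hψ fun t ht => (mem_sdiff.1 (hZY (hψZ t ht))).2
    · rw [← hU, PS_union hd (fun u v => by rw [hA, hχ])]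
      have e1 : PS S' (fun u v => A u v * χ (if u ∈ T then ψ u else φ u)
          (if v ∈ T then ψ v else φ v)) = 0 := by
        rw [← hφ0]
        refine PS_congr fun u hu v hv _ => ?_
        rw [if_neg (disjoint_left.1 hd hu), if_neg (disjoint_left.1 hd hv)]
      have e2 : PS T (fun u v => A u v * χ (if u ∈ T then ψ u else φ u)
          (if v ∈ T then ψ v else φ v)) = 0 := by
        rw [PS_congr (h' := fun _ _ => ε * b), PS_const, hTc, choose_two_mul, zero_mul]
        intro u hu v hv huv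
        rw [if_pos hu, if_pos hv, hε' u hu v hv huv,
          sym hb _ (hψZ u hu) _ (hψZ v hv) (fun e => huv (hψ hu hv e))]
      have e3 : ∑ t ∈ T, ∑ s ∈ S', A t s * χ (if t ∈ T then ψ t else φ t)
          (if s ∈ T then ψ s else φ s) = 0 := by
        rw [sum_congr rfl (g := fun _ => lam), sum_const, hTc, nsmul_eq_mul, hk0, zero_mul]
        intro t ht
        rw [← hlam _ (hψZ t ht)]
        refine sum_congr rfl fun s hs => ?_
        rw [if_pos ht, if_neg (disjoint_left.1 hd hs), htw t ht s hs]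
      rw [e1, e2, e3]; simp

theorem linear_lemma (k : ℕ) [NeZero k] {V X : Type} [DecidableEq V] [DecidableEq X]
    (d : V → ZMod k) (γ : X → ZMod k) (P : Finset X) (S : Finset V) :
    ∑ v ∈ S, d v = 0 → S.card + k * (k * k) ≤ P.card →
      ∃ φ : V → X, Set.InjOn φ S ∧ (∀ v ∈ S, φ v ∈ P) ∧ ∑ v ∈ S, d v * γ (φ v) = 0 := by
  have hk : 0 < k := Nat.pos_of_ne_zero (NeZero.ne k)
  induction hn : S.card using Nat.strong_induction_on generalizing S with
  | _ n ih =>
  intro h0 hcard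
  have hkk : 0 < k * (k * k) := by positivity
  have : Nonempty X := by
    obtain ⟨x, -⟩ : P.Nonempty := card_pos.1 (by omega)
    exact ⟨x⟩
  by_cases hsmall : S.card ≤ k * k
  · obtain ⟨Z, hZP, hZc, a, ha⟩ := pigeon γ P (k * k) (by rw [ZMod.card]; omega)
    obtain ⟨ψ, hψ, hψZ⟩ := exists_inj S Z (by omega)
    refine ⟨ψ, hψ, fun v hv => hZP (hψZ v hv), ?_⟩
    rw [sum_congr rfl (g := fun v => d v * a), ← sum_mul, h0, zero_mul]
    intro v hv
    rw [ha _ (hψZ v hv)]
  · obtain ⟨T, hTS, hTc, a, ha⟩ := pigeon d S k (by rw [ZMod.card]; omega)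
    set S' := S \ T with hS'
    have hd : Disjoint S' T := sdiff_disjoint
    have hU : S' ∪ T = S := sdiff_union_of_subset hTS
    have hc' : S'.card + k = S.card := by rw [← hU, card_union_of_disjoint hd, hTc]
    have hk0 : ((k : ℕ) : ZMod k) = 0 := by simp
    have h0' : ∑ v ∈ S', d v = 0 := by
      rw [← hU, sum_union hd, sum_congr rfl ha, sum_const, hTc, nsmul_eq_mul, hk0] at h0
      simpa using h0
    obtain ⟨φ, hφ, hφP, hφ0⟩ := ih S'.card (by omega) S' rfl h0' (by omega)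
    have hY : Fintype.card (ZMod k) * k ≤ (P \ S'.image φ).card := by
      rw [ZMod.card]
      have h1 := card_image_le (s := S') (f := φ)
      have h2 := le_card_sdiff (S'.image φ) P
      have h3 : k * k ≤ k * (k * k) := Nat.le_mul_of_pos_left _ hk
      omega
    obtain ⟨Z, hZY, hZc, b, hb⟩ := pigeon γ _ k hY
    obtain ⟨ψ, hψ, hψZ⟩ := exists_inj T Z (by rw [hTc, hZc])
    refine ⟨fun v => if v ∈ T then ψ v else φ v, ?_, ?_, ?_⟩
    · rw [← hU]
      exact glue φ ψ hφ hψ fun t ht => (mem_sdiff.1 (hZY (hψZ t ht))).2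
    · intro v hv
      by_cases hvT : v ∈ T
      · simp only [hvT, if_true]; exact (mem_sdiff.1 (hZY (hψZ v hvT))).1
      · simp only [hvT, if_false]; exact hφP v (mem_sdiff.2 ⟨hv, hvT⟩)
    · rw [← hU, sum_union hd]
      have e1 : ∑ v ∈ S', d v * γ (if v ∈ T then ψ v else φ v) = 0 := by
        rw [← hφ0]
        refine sum_congr rfl fun v hv => ?_
        rw [if_neg (disjoint_left.1 hd hv)]
      have e2 : ∑ v ∈ T, d v * γ (if v ∈ T then ψ v else φ v) = 0 := by
        rw [sum_congr rfl (g := fun _ => a * b), sum_const, hTc, nsmul_eq_mul, hk0, zero_mul]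
        intro v hv
        rw [if_pos hv, ha v hv, hb _ (hψZ v hv)]
      rw [e1, e2]; simp

end Pool.Agent.H395Z.Zs
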