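import Pool.Agent.H395Z.ZsSwap

set_option autoImplicit false

namespace Pool.Agent.H395Z.Zs

open Finset

theorem case2 (k : ℕ) [NeZero k] : ∃ K c : ℕ, ∀ (V X : Type) [LinearOrder V] [Fintype V]
    [DecidableEq X] [Fintype X] (r : V → V → Bool) (_ : ∀ u v, r u v = r v u)
    (_ : ∀ u, r u u = false) (U : Finset V) (_ : K ≤ U.card)
    (_ : ∀ a ∈ U, ∀ b ∈ U, a ≠ b → ∃ w, w ≠ a ∧ w ≠ b ∧ r a w ≠ r b w)
    (χ : X → X → ZMod k) (_ : ∀ x y, χ x y = χ y x),
    PS univ (fun u v => if r u v then (1 : ZMod k) else 0) = 0 →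
    Fintype.card V + c ≤ Fintype.card X →
    ∃ φ : V → X, Function.Injective φ ∧
      PS univ (fun u v => (if r u v then (1 : ZMod k) else 0) * χ (φ u) (φ v)) = 0 := by
  obtain ⟨K, hK⟩ := gadget_lemma k (k * k)
  obtain ⟨c, hc⟩ := host k
  refine ⟨K, c + 4 * (k * k) + k * (k * k),
    fun V X _ _ _ _ r hr hr0 U hU hnt χ hχ h0 hcard => ?_⟩
  set A : V → V → ZMod k := fun u v => if r u v then (1 : ZMod k) else 0 with hAd
  have hA : ∀ u v, A u v = A v u := fun u v => by simp only [hAd, hr u v]
  have hA0 : ∀ u, A u u = 0 := fun u => by simp [hAd, hr0]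
  set d : V → ZMod k := fun v => ∑ u, A v u with hd
  obtain ⟨g0, δ, ρ, hδ, hinv0, hρ⟩ := hK V r hr d U hU hnt
  obtain ⟨S, E, γ, a, q, t, hE, hH, hqE, hqγ, hqκ⟩ := hc X χ hχ (by omega)
  have hIc : Fintype.card (S × Fin k) ≤ k * k := by
    have := card_le_univ S
    rw [ZMod.card] at this
    simp only [Fintype.card_prod, Fintype.card_coe, Fintype.card_fin]
    exact Nat.mul_le_mul_right _ this
  obtain ⟨ι⟩ : Nonempty (S × Fin k ↪ Fin (k * k)) :=
    Function.Embedding.nonempty_of_card_le (by simpa using hIc)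
  let g : (S × Fin k) × Bool × Bool ↪ V :=
    (ι.prodMap (Function.Embedding.refl _)).trans g0
  have hg : ∀ i z, g (i, z) = g0 (ι i, z) := fun _ _ => rfl
  have hk0 : ((k : ℕ) : ZMod k) = 0 := by simp
  -- sums over the gadgets vanish
  have hblock : ∀ F : S → Bool × Bool → ZMod k,
      ∑ w : (S × Fin k) × Bool × Bool, F w.1.1 w.2 = 0 := by
    intro F
    rw [Fintype.sum_prod_type, Fintype.sum_prod_type]
    refine sum_eq_zero fun s _ => ?_
    simp only [sum_const, card_univ, Fintype.card_fin, nsmul_eq_mul, hk0, zero_mul]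
  have hsplit : ∀ F : V → ZMod k, ∑ v, F v = ∑ v ∈ univ \ univ.map g, F v + ∑ w, F (g w) := by
    intro F
    rw [← sum_map univ g F, sum_sdiff (subset_univ _)]
  have hdsum : ∑ v, d v = 0 := by
    have := PS_deg univ A hA hA0 (fun _ => 1)
    rw [PS_mul, h0, zero_mul] at this
    simpa using this.symm
  have hdg : ∀ w, d (g w) = δ w.2.1 := fun ⟨i, b, e⟩ => hδ (ι i) b e
  have hrest : ∑ v ∈ univ \ univ.map g, d v = 0 := by
    have := hsplit d
    rw [hdsum, sum_congr rfl (fun w _ => hdg w), hblock (fun _ z => δ z.1), add_zero] at this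
    exact this.symm
  obtain ⟨ψ, hψ, hψP, hψ0⟩ := linear_lemma k d γ (univ \ (E ∪ univ.map q)) _ hrest (by
    have h1 := card_le_univ (univ \ univ.map g : Finset V)
    have h2 := card_union_le E (univ.map q)
    have h3 : (univ.map q).card ≤ 4 * (k * k) := by
      rw [card_map, card_univ, Fintype.card_prod]
      simp only [Fintype.card_prod (α := Bool), Fintype.card_bool]
      omega
    rw [card_univ_sdiff (E ∪ univ.map q)]
    omega)
  let φ0 : V → X := Function.extend g q ψ
  have hφg : ∀ w, φ0 (g w) = q w := fun w => g.injective.extend_apply _ _ _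
  have hφo : ∀ v ∈ univ \ univ.map g, φ0 v = ψ v := fun v hv => by
    refine Function.extend_apply' _ _ _ ?_
    simpa using hv
  have hcases : ∀ v, (∃ w, g w = v) ∨ v ∈ univ \ univ.map g := fun v => by
    by_cases h : ∃ w, g w = v
    · exact Or.inl h
    · right; simpa using h
  have hφE : ∀ v, φ0 v ∉ E := fun v => by
    rcases hcases v with ⟨w, rfl⟩ | h
    · rw [hφg]; exact hqE w
    · rw [hφo v h]
      exact fun h' => (mem_sdiff.1 (hψP v h)).2 (mem_union_left _ h')
  have hφinj : Function.Injective φ0 := by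
    intro u v huv
    rcases hcases u with ⟨w, rfl⟩ | hu <;> rcases hcases v with ⟨w', rfl⟩ | hv
    · rw [hφg, hφg] at huv
      rw [q.injective huv]
    · rw [hφg, hφo v hv] at huv
      exact absurd (mem_union_right _ (mem_map.2 ⟨w, mem_univ _, huv⟩))
        (mem_sdiff.1 (hψP v hv)).2
    · rw [hφg, hφo u hu] at huv
      exact absurd (mem_union_right _ (mem_map.2 ⟨w', mem_univ _, huv.symm⟩))
        (mem_sdiff.1 (hψP u hu)).2
    · rw [hφo u hu, hφo v hv] at huv
      exact hψ hu hv huv
  have hlin : ∑ v, d v * γ (φ0 v) = 0 := by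
    rw [hsplit, sum_congr rfl (fun v hv => by rw [hφo v hv]), hψ0, zero_add,
      ← hblock (fun s z => δ z.1 * t s z)]
    refine sum_congr rfl fun w _ => ?_
    rw [hdg, hφg, ← hqγ w.1 w.2]
  set cc : V → V → ZMod k := fun u v => χ (φ0 u) (φ0 v) with hcc
  have hccs : ∀ u v, cc u v = cc v u := fun u v => hχ _ _
  have hF : PS univ (fun u v => A u v * cc u v) ∈ AddSubgroup.closure (S : Set (ZMod k)) := by
    have e1 : PS univ (fun u v => A u v * cc u v) =
        PS univ (fun u v => A u v * (cc u v - γ (φ0 u) - γ (φ0 v) - a)) +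
          PS univ (fun u v => A u v * (γ (φ0 u) + γ (φ0 v))) +
          PS univ (fun u v => A u v * a) := by
      rw [← PS_add, ← PS_add]
      exact PS_congr fun u _ v _ _ => by ring
    rw [e1, PS_deg univ A hA hA0 (fun v => γ (φ0 v)), hlin, PS_mul, h0, zero_mul, add_zero,
      add_zero]
    refine PS_mem _ _ _ fun u _ v _ huv => ?_
    simp only [hAd]
    split_ifs
    · rw [one_mul]; exact hH _ _ (hφE u) (hφE v) (hφinj.ne huv)
    · rw [zero_mul]; exact AddSubgroup.zero_mem _
  have hinv : ∀ i j : S × Fin k, i ≠ j → ∀ b c c' b' e e',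
      A (g (i, b, c)) (g (j, b', e)) = A (g (i, b, c')) (g (j, b', e')) := by
    intro i j hij b c c' b' e e'
    simp only [hAd, hg]
    rw [hinv0 (ι i) (ι j) (ι.injective.ne hij) b c c' b' e e']
  obtain ⟨st, hst⟩ := additive_lemma (I := S × Fin k) (St := Bool → Bool)
    (fun i s => Val g A cc (sg i s) - Val g A cc (fun _ _ => false)) (fun _ => false)
    (fun i => by
      have : sg i (fun _ => false) = fun _ _ => false := by
        funext j b; simp only [sg]; split_ifs <;> rfl
      rw [this, sub_self])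
    (S : Set (ZMod k)) (by
      intro s hs
      refine ⟨univ.map ⟨fun j : Fin k => ((⟨s, hs⟩ : S), j), fun j j' h => (Prod.ext_iff.1 h).2⟩,
        by simp, ?_⟩
      intro i hi
      obtain ⟨j, -, rfl⟩ := mem_map.1 hi
      set i : S × Fin k := (⟨s, hs⟩, j) with hi
      have h2 := Val_second g A cc hA hccs i (if ρ then 1 else 0) (if (!ρ) then 1 else 0)
        (by simp only [hAd, hg, (hρ (ι i)).1]) (by simp only [hAd, hg, (hρ (ι i)).2.1])
        (by simp only [hAd, hg, (hρ (ι i)).2.2.1]) (by simp only [hAd, hg, (hρ (ι i)).2.2.2])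
      have h3 : kap cc (fun z => g (i, z)) = s := by
        have := hqκ i
        simp only [kap, hcc, hφg] at this ⊢
        exact this
      rw [h3] at h2
      change s ∈ AddSubgroup.closure (Set.range fun s =>
        Val g A cc (sg i s) - Val g A cc (fun _ _ => false))
      set H := AddSubgroup.closure (Set.range fun s =>
        Val g A cc (sg i s) - Val g A cc (fun _ _ => false)) with hH
      have hm : ∀ s, Val g A cc (sg i s) - Val g A cc (fun _ _ => false) ∈ H :=
        fun s => AddSubgroup.subset_closure ⟨s, rfl⟩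
      have h4 := H.sub_mem (H.sub_mem (hm fun _ => true) (hm fun b => !b)) (hm fun b => b)
      have h5 : ((if ρ then 1 else 0) - (if (!ρ) then 1 else 0)) * s ∈ H := by
        rw [← h2]; convert h4 using 1; ring
      cases ρ
      · simpa using h5
      · simpa using h5)
    _ (AddSubgroup.neg_mem _ hF)
  have hval : Val g A cc st = 0 := by
    have := Val_add g A cc hinv st
    rw [hst, Val_zero] at this
    linear_combination this
  refine ⟨φ0 ∘ (pw g st).symm, hφinj.comp (pw g st).symm.injective, ?_⟩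
  refine (PS_perm (pw g st) (h := fun u v => A u v * χ ((φ0 ∘ (pw g st).symm) u)
    ((φ0 ∘ (pw g st).symm) v)) (fun u v => by rw [hA, hχ])).trans (Eq.trans ?_ hval)
  simp only [Val, Function.comp, Equiv.symm_apply_apply, hcc]

theorem main (k : ℕ) (hk : 0 < k) : ∃ c : ℕ, ∀ n : ℕ, ∀ (G : SimpleGraph (Fin n))
    [DecidableRel G.Adj], k ∣ G.edgeFinset.card → ∀ f : Sym2 (Fin (n + c)) → ZMod k,
      ∃ φ : Fin n ↪ Fin (n + c), ∑ e ∈ G.edgeFinset, f (Sym2.map φ e) = 0 := by
  classical
  have : NeZero k := ⟨hk.ne'⟩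
  obtain ⟨K, c2, h2⟩ := case2 k
  obtain ⟨c1, h1⟩ := case1 k (Fin (K + 1))
  refine ⟨c1 + c2, fun n G _ hdvd f => ?_⟩
  set A : Fin n → Fin n → ZMod k := fun u v => if G.Adj u v then 1 else 0 with hAd
  have hA : ∀ u v, A u v = A v u := fun u v => by simp only [hAd, G.adj_comm u v]
  have h0 : PS univ A = 0 := by
    have := edge_sum G (fun _ => (1 : ZMod k))
    simp only [mul_one, sum_const, nsmul_eq_mul] at this
    rw [← this, ZMod.natCast_eq_zero_iff]
    exact hdvd
  set χ : Fin (n + (c1 + c2)) → Fin (n + (c1 + c2)) → ZMod k := fun x y => f s(x, y) with hχd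
  have hχ : ∀ x y, χ x y = χ y x := fun x y => by simp only [hχd, Sym2.eq_swap]
  suffices h : ∃ φ : Fin n → Fin (n + (c1 + c2)), Function.Injective φ ∧
      PS univ (fun u v => A u v * χ (φ u) (φ v)) = 0 by
    obtain ⟨φ, hφ, h⟩ := h
    refine ⟨⟨φ, hφ⟩, ?_⟩
    rw [edge_sum]
    exact h
  -- twin classes
  let tw : Setoid (Fin n) :=
    { r := fun u v => ∀ w, w ≠ u → w ≠ v → (G.Adj u w ↔ G.Adj v w)
      iseqv :=
        { refl := fun _ _ _ _ => Iff.rfl
          symm := fun h w h1 h2 => (h w h2 h1).symm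
          trans := by
            intro u v w huv hvw x hxu hxw
            by_cases hxv : x = v
            · subst hxv
              by_cases huw : u = w
              · rw [huw]
              · rw [G.adj_comm u x, hvw u hxu.symm huw, G.adj_comm w u,
                  huv w (Ne.symm huw) hxw.symm, G.adj_comm]
            · exact (huv x hxu hxv).trans (hvw x hxv hxw) } }
  by_cases hcl : Fintype.card (Quotient tw) ≤ K + 1
  · obtain ⟨ι⟩ : Nonempty (Quotient tw ↪ Fin (K + 1)) :=
      Function.Embedding.nonempty_of_card_le (by simpa using hcl)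
    obtain ⟨φ, hφ, h⟩ := h1 (Fin n) _ A hA (fun v => ι (Quotient.mk tw v)) (by
      intro u v w huv hu hv
      have : tw.r u v := Quotient.exact (ι.injective huv)
      simp only [hAd, this w hu hv]) χ hχ univ h0 (by simp)
    exact ⟨φ, by simpa using hφ, h⟩
  · obtain ⟨φ, hφ, h⟩ := h2 (Fin n) _ (fun u v => decide (G.Adj u v))
      (fun u v => by simp only [G.adj_comm u v]) (fun u => by simp)
      (univ.map ⟨Quotient.out (s := tw), Quotient.out_injective⟩) (by simp; omega) (by
        intro a ha b hb hab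
        obtain ⟨x, -, rfl⟩ := mem_map.1 ha
        obtain ⟨y, -, rfl⟩ := mem_map.1 hb
        by_contra hcon
        push Not at hcon
        apply hab
        have : tw.r x.out y.out := fun w h1 h2 => by simpa using hcon w h1 h2
        have := Quotient.sound this
        rw [Quotient.out_eq, Quotient.out_eq] at this
        rw [this]) χ hχ (by simpa using h0) (by simp)
    exact ⟨φ, hφ, by simpa [hAd] using h⟩

end Pool.Agent.H395Z.Zs
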