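import Pool.Agent.H395Z.ZsGad

set_option autoImplicit false

namespace Pool.Agent.H395Z.Zs

open Finset

section Swap

variable {I V Γ : Type} [DecidableEq I] [CommRing Γ]

/-- swap the two vertices on side `b` of gadget `i` when `st i b` holds -/
def sw (st : I → Bool → Bool) : Equiv.Perm (I × Bool × Bool) :=
  Function.Involutive.toPerm (fun z => (z.1, z.2.1, xor z.2.2 (st z.1 z.2.1))) (by
    rintro ⟨i, b, c⟩
    simp)

noncomputable def pw (g : I × Bool × Bool ↪ V) (st : I → Bool → Bool) : Equiv.Perm V :=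
  (sw st).viaEmbedding g

omit [DecidableEq I] in
theorem pw_g (g : I × Bool × Bool ↪ V) (st : I → Bool → Bool) (i : I) (b c : Bool) :
    pw g st (g (i, b, c)) = g (i, b, xor c (st i b)) := by
  rw [pw, Equiv.Perm.viaEmbedding_apply]; rfl

omit [DecidableEq I] in
theorem pw_out (g : I × Bool × Bool ↪ V) (st : I → Bool → Bool) (u : V) (hu : u ∉ Set.range g) :
    pw g st u = u := Equiv.Perm.viaEmbedding_apply_of_notMem _ _ _ hu

def sg (i : I) (s : Bool → Bool) : I → Bool → Bool := fun j => if j = i then s else fun _ => false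

theorem sg_self (i : I) (s : Bool → Bool) : sg i s i = s := by simp [sg]

theorem sg_ne {i j : I} (h : j ≠ i) (s : Bool → Bool) (b : Bool) : sg i s j b = false := by
  simp [sg, h]

theorem termwise [Fintype I] (g : I × Bool × Bool ↪ V) (A : V → V → Γ)
    (inv : ∀ i j, i ≠ j → ∀ b c c' b' e e',
      A (g (i, b, c)) (g (j, b', e)) = A (g (i, b, c')) (g (j, b', e')))
    (st : I → Bool → Bool) (u v : V) :
    A (pw g st u) (pw g st v) - A u v =
      ∑ i, (A (pw g (sg i (st i)) u) (pw g (sg i (st i)) v) - A u v) := by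
  by_cases hu : u ∈ Set.range g <;> by_cases hv : v ∈ Set.range g
  · obtain ⟨⟨i, b, c⟩, rfl⟩ := hu
    obtain ⟨⟨j, b', e⟩, rfl⟩ := hv
    by_cases hij : i = j
    · subst hij
      rw [sum_eq_single i]
      · simp only [pw_g, sg_self]
      · intro j _ hj
        simp [pw_g, sg_ne hj.symm]
      · simp
    · rw [sum_eq_zero]
      · rw [pw_g, pw_g, inv i j hij b _ c b' _ e, sub_self]
      · intro l _
        rw [pw_g, pw_g, inv i j hij b _ c b' _ e, sub_self]
  · obtain ⟨⟨i, b, c⟩, rfl⟩ := hu
    rw [sum_eq_single i]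
    · simp only [pw_g, sg_self, pw_out _ _ _ hv]
    · intro j _ hj
      simp [pw_g, sg_ne hj.symm, pw_out _ _ _ hv]
    · simp
  · obtain ⟨⟨i, b, c⟩, rfl⟩ := hv
    rw [sum_eq_single i]
    · simp only [pw_g, sg_self, pw_out _ _ _ hu]
    · intro j _ hj
      simp [pw_g, sg_ne hj.symm, pw_out _ _ _ hu]
    · simp
  · simp [pw_out _ _ _ hu, pw_out _ _ _ hv]

theorem PS_four [LinearOrder V] {p0 p1 q0 q1 : V} (h1 : p0 ≠ p1) (h2 : p0 ≠ q0) (h3 : p0 ≠ q1)
    (h4 : p1 ≠ q0) (h5 : p1 ≠ q1) (h6 : q0 ≠ q1) {h : V → V → Γ} (hs : ∀ u v, h u v = h v u) :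
    PS {p0, p1, q0, q1} h = h p0 p1 + h p0 q0 + h p0 q1 + h p1 q0 + h p1 q1 + h q0 q1 := by
  have e0 : PS {q1} h = 0 := by simp [PS]
  rw [PS_insert (by simp [h1, h2, h3]) hs, PS_insert (by simp [h4, h5]) hs,
    PS_insert (by simp [h6]) hs, e0, sum_insert (a := p1) (by simp [h4, h5]),
    sum_insert (a := q0) (by simp [h6]), sum_insert (a := q0) (by simp [h6])]
  simp only [sum_singleton]
  ring

noncomputable def Val [LinearOrder V] [Fintype V] (g : I × Bool × Bool ↪ V) (A cc : V → V → Γ)
    (st : I → Bool → Bool) : Γ :=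
  PS univ fun u v => A (pw g st u) (pw g st v) * cc u v

omit [DecidableEq I] in
theorem pw_zero (g : I × Bool × Bool ↪ V) (u : V) : pw g (fun _ _ => false) u = u := by
  by_cases hu : u ∈ Set.range g
  · obtain ⟨⟨i, b, c⟩, rfl⟩ := hu
    simp [pw_g]
  · exact pw_out _ _ _ hu

omit [DecidableEq I] in
theorem Val_zero [LinearOrder V] [Fintype V] (g : I × Bool × Bool ↪ V) (A cc : V → V → Γ) :
    Val g A cc (fun _ _ => false) = PS univ fun u v => A u v * cc u v := by
  simp only [Val, pw_zero]

theorem Val_add [LinearOrder V] [Fintype V] [Fintype I] (g : I × Bool × Bool ↪ V)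
    (A cc : V → V → Γ)
    (inv : ∀ i j, i ≠ j → ∀ b c c' b' e e',
      A (g (i, b, c)) (g (j, b', e)) = A (g (i, b, c')) (g (j, b', e')))
    (st : I → Bool → Bool) :
    Val g A cc st - Val g A cc (fun _ _ => false) =
      ∑ i, (Val g A cc (sg i (st i)) - Val g A cc (fun _ _ => false)) := by
  simp only [Val_zero]
  simp only [Val, ← PS_sub, ← PS_sum, ← sub_mul, ← sum_mul]
  exact PS_congr fun u _ v _ _ => by rw [termwise g A inv st u v]

theorem Val_second [LinearOrder V] [Fintype V] (g : I × Bool × Bool ↪ V)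
    (A cc : V → V → Γ) (hA : ∀ u v, A u v = A v u) (hc : ∀ u v, cc u v = cc v u) (i : I) (x y : Γ)
    (h1 : A (g (i, false, false)) (g (i, true, false)) = x)
    (h2 : A (g (i, false, true)) (g (i, true, false)) = y)
    (h3 : A (g (i, false, false)) (g (i, true, true)) = y)
    (h4 : A (g (i, false, true)) (g (i, true, true)) = y) :
    Val g A cc (sg i fun _ => true) - Val g A cc (sg i fun b => !b) - Val g A cc (sg i fun b => b)
      + Val g A cc (fun _ _ => false) = (x - y) * kap cc (fun z => g (i, z)) := by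
  rw [Val_zero]
  simp only [Val, ← PS_sub, ← PS_add, ← sub_mul, ← add_mul]
  have hne : ∀ z z' : Bool × Bool, z ≠ z' → g (i, z) ≠ g (i, z') := fun z z' h e =>
    h (Prod.ext_iff.1 (g.injective e)).2
  have hout : ∀ u, u ∉ ({g (i, false, false), g (i, false, true), g (i, true, false),
      g (i, true, true)} : Finset V) → ∀ s, pw g (sg i s) u = u := by
    intro u hu s
    by_cases hu' : u ∈ Set.range g
    · obtain ⟨⟨j, b, c⟩, rfl⟩ := hu'
      have hj : j ≠ i := by
        rintro rfl
        cases b <;> cases c <;> simp at hu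
      simp [pw_g, sg_ne hj]
    · exact pw_out _ _ _ hu'
  have key : ∀ u v, u ∉ ({g (i, false, false), g (i, false, true), g (i, true, false),
      g (i, true, true)} : Finset V) →
      A (pw g (sg i fun _ => true) u) (pw g (sg i fun _ => true) v) -
        A (pw g (sg i fun b => !b) u) (pw g (sg i fun b => !b) v) -
        A (pw g (sg i fun b => b) u) (pw g (sg i fun b => b) v) + A u v = 0 := by
    intro u v hu
    simp only [hout u hu]
    by_cases hv : v ∈ ({g (i, false, false), g (i, false, true), g (i, true, false),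
      g (i, true, true)} : Finset V)
    · simp only [mem_insert, mem_singleton] at hv
      rcases hv with rfl | rfl | rfl | rfl <;> simp [pw_g, sg_self]
    · simp [hout v hv]
  rw [PS_support (T := {g (i, false, false), g (i, false, true), g (i, true, false),
      g (i, true, true)}) (subset_univ _), PS_four (hne _ _ (by simp)) (hne _ _ (by simp))
      (hne _ _ (by simp)) (hne _ _ (by simp)) (hne _ _ (by simp)) (hne _ _ (by simp))]
  · simp only [pw_g, sg_self, kap, Bool.not_false, Bool.not_true, Bool.xor_true, Bool.xor_false,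
      h1, h2, h3, h4]
    ring
  · intro u v
    rw [hA u v, hc u v, hA (pw g _ u), hA (pw g (sg i fun b => !b) u),
      hA (pw g (sg i fun b => b) u)]
  · intro u _ v _ huv
    rcases huv with hu | hv
    · rw [key u v hu, zero_mul]
    · rw [hA u v, hA (pw g _ u), hA (pw g (sg i fun b => !b) u),
        hA (pw g (sg i fun b => b) u), key v u hv, zero_mul]

end Swap

end Pool.Agent.H395Z.Zs
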